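import Mathlib

set_option autoImplicit false

/-! The scales `τ i = n ^ fract (i λ)`, `λ = log (n p) / log n`. -/

namespace Pool.Agent.W963.LogDepth

open Finset

noncomputable def gg (lam : ℝ) (i : ℕ) : ℝ := Int.fract ((i : ℝ) * lam)

theorem gg_zero (lam : ℝ) : gg lam 0 = 0 := by simp [gg]

theorem gg_nonneg (lam : ℝ) (i : ℕ) : 0 ≤ gg lam i := Int.fract_nonneg _

theorem gg_lt_one (lam : ℝ) (i : ℕ) : gg lam i < 1 := Int.fract_lt_one _

theorem gg_succ_lt {lam : ℝ} (h0 : 0 ≤ lam) {i : ℕ} (h : gg lam i + lam < 1) :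
    gg lam (i + 1) = gg lam i + lam := by
  unfold gg at *
  rw [Int.fract_eq_iff]
  refine ⟨add_nonneg (Int.fract_nonneg _) h0, h, ⌊(i : ℝ) * lam⌋, ?_⟩
  have := Int.self_sub_fract ((i : ℝ) * lam)
  push_cast
  linarith

theorem gg_succ_ge {lam : ℝ} (h1 : lam ≤ 1) {i : ℕ} (h : 1 ≤ gg lam i + lam) :
    gg lam (i + 1) = gg lam i + lam - 1 := by
  unfold gg at *
  rw [Int.fract_eq_iff]
  refine ⟨by linarith, by have := Int.fract_lt_one ((i : ℝ) * lam); linarith,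
    ⌊(i : ℝ) * lam⌋ + 1, ?_⟩
  have := Int.self_sub_fract ((i : ℝ) * lam)
  push_cast
  linarith

theorem gg_sub_le {lam : ℝ} {a b : ℕ} (hab : a ≤ b) (h : gg lam a ≤ gg lam b) :
    gg lam (b - a) = gg lam b - gg lam a := by
  unfold gg at *
  rw [Int.fract_eq_iff]
  refine ⟨by linarith, ?_, ⌊(b : ℝ) * lam⌋ - ⌊(a : ℝ) * lam⌋, ?_⟩
  · have := Int.fract_lt_one ((b : ℝ) * lam)
    have := Int.fract_nonneg ((a : ℝ) * lam)
    linarith
  · have h1 := Int.self_sub_fract ((a : ℝ) * lam)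
    have h2 := Int.self_sub_fract ((b : ℝ) * lam)
    push_cast [Nat.cast_sub hab]
    linarith

theorem gg_sub_gt {lam : ℝ} {a b : ℕ} (hab : a ≤ b) (h : gg lam b < gg lam a) :
    gg lam (b - a) = gg lam b - gg lam a + 1 := by
  unfold gg at *
  rw [Int.fract_eq_iff]
  refine ⟨?_, by linarith, ⌊(b : ℝ) * lam⌋ - ⌊(a : ℝ) * lam⌋ - 1, ?_⟩
  · have := Int.fract_lt_one ((a : ℝ) * lam)
    have := Int.fract_nonneg ((b : ℝ) * lam)
    linarith
  · have h1 := Int.self_sub_fract ((a : ℝ) * lam)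
    have h2 := Int.self_sub_fract ((b : ℝ) * lam)
    push_cast [Nat.cast_sub hab]
    linarith

/-- all `g j`, `1 ≤ j ≤ i`, are in the middle range -/
def Mid (lam κ ℓ : ℝ) (i : ℕ) : Prop := ∀ j, 1 ≤ j → j ≤ i → ℓ < gg lam j ∧ gg lam j < 1 - κ

theorem mid_sep {lam κ ℓ : ℝ} (hκℓ : κ ≤ ℓ) {i : ℕ} (h : Mid lam κ ℓ i) {a b : ℕ}
    (ha : 1 ≤ a) (hab : a < b) (hb : b ≤ i) : κ < |gg lam a - gg lam b| := by
  have h1 := h (b - a) (by omega) (by omega)
  rcases le_or_gt (gg lam a) (gg lam b) with h2 | h2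
  · rw [gg_sub_le hab.le h2] at h1
    rw [abs_sub_comm, abs_of_nonneg (by linarith)]
    linarith
  · rw [gg_sub_gt hab.le h2] at h1
    rw [abs_of_nonneg (by linarith)]
    linarith

theorem floor_inj {κ x y : ℝ} (hκ : 0 < κ) (hx : 0 ≤ x) (hy : 0 ≤ y) (h : κ < |x - y|)
    (he : ⌊x / κ⌋₊ = ⌊y / κ⌋₊) : False := by
  have h1 := Nat.floor_le (div_nonneg hx hκ.le)
  have h2 := Nat.lt_floor_add_one (x / κ)
  have h3 := Nat.floor_le (div_nonneg hy hκ.le)
  have h4 := Nat.lt_floor_add_one (y / κ)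
  rw [he] at h1 h2
  have h5 : |x / κ - y / κ| < 1 := by
    rw [abs_lt]; constructor <;> linarith
  rw [← sub_div, abs_div, abs_of_pos hκ, div_lt_one hκ] at h5
  linarith

theorem sum_geom_inj {q : ℝ} (h0 : 0 ≤ q) (h1 : q < 1) (s : Finset ℕ) (φ : ℕ → ℕ)
    (hφ : Set.InjOn φ s) : ∑ i ∈ s, q ^ φ i ≤ (1 - q)⁻¹ := by
  rw [← tsum_geometric_of_lt_one h0 h1, ← sum_image (f := fun k => q ^ k) hφ]
  exact (summable_geometric_of_lt_one h0 h1).sum_le_tsum _ (fun i _ => pow_nonneg h0 i)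

theorem mid_bound {lam κ ℓ : ℝ} (hκ : 0 < κ) (hκℓ : κ ≤ ℓ) {M : ℕ} (h : Mid lam κ ℓ M) :
    (M : ℝ) ≤ 1 / κ := by
  rcases Nat.eq_zero_or_pos M with rfl | hM
  · simp only [Nat.cast_zero]; positivity
  have hinj : Set.InjOn (fun i => ⌊(1 - κ - gg lam (i + 1)) / κ⌋₊) (range M : Finset ℕ) := by
    intro a ha b hb hab
    rw [mem_coe, mem_range] at ha hb
    simp only at hab
    by_contra hne
    have ga := h (a + 1) (by omega) (by omega)
    have gb := h (b + 1) (by omega) (by omega)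
    have hs : κ < |gg lam (a + 1) - gg lam (b + 1)| := by
      rcases lt_or_gt_of_ne hne with h1 | h1
      · exact mid_sep hκℓ h (by omega) (by omega) (by omega)
      · rw [abs_sub_comm]
        exact mid_sep hκℓ h (by omega) (by omega) (by omega)
    refine floor_inj hκ (by linarith) (by linarith) ?_ hab
    have e : (1 - κ - gg lam (a + 1)) - (1 - κ - gg lam (b + 1)) =
        gg lam (b + 1) - gg lam (a + 1) := by ring
    rw [e, abs_sub_comm]
    exact hs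
  have hmaps : Set.MapsTo (fun i => ⌊(1 - κ - gg lam (i + 1)) / κ⌋₊) (range M : Finset ℕ)
      (range ⌈1 / κ - 1⌉₊ : Finset ℕ) := by
    intro a ha
    rw [mem_coe, mem_range] at ha
    simp only [coe_range, Set.mem_Iio]
    have ga := h (a + 1) (by omega) (by omega)
    rw [Nat.lt_ceil]
    refine lt_of_le_of_lt (Nat.floor_le (div_nonneg (by linarith) hκ.le)) ?_
    rw [sub_right_comm, sub_div (1 - gg lam (a + 1)), div_self hκ.ne']
    have : (1 - gg lam (a + 1)) / κ < 1 / κ := by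
      apply div_lt_div_of_pos_right _ hκ
      linarith
    linarith
  have hcard := card_le_card_of_injOn _ hmaps hinj
  rw [card_range, card_range] at hcard
  have g1 := h 1 le_rfl hM
  have h2 : (⌈1 / κ - 1⌉₊ : ℝ) < 1 / κ - 1 + 1 := by
    apply Nat.ceil_lt_add_one
    rw [sub_nonneg, le_div_iff₀ hκ]
    linarith
  have h3 : (M : ℝ) ≤ ⌈1 / κ - 1⌉₊ := by exact_mod_cast hcard
  linarith

theorem mid_sum_top {lam κ ℓ q : ℝ} (hκ : 0 < κ) (hκℓ : κ ≤ ℓ) {M : ℕ} (h : Mid lam κ ℓ M)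
    (h0 : 0 ≤ q) (h1 : q < 1) :
    ∑ i ∈ range M, q ^ ⌊(1 - κ - gg lam (i + 1)) / κ⌋₊ ≤ (1 - q)⁻¹ := by
  apply sum_geom_inj h0 h1
  intro a ha b hb hab
  rw [mem_coe, mem_range] at ha hb
  simp only at hab
  by_contra hne
  have ga := h (a + 1) (by omega) (by omega)
  have gb := h (b + 1) (by omega) (by omega)
  have hs : κ < |gg lam (a + 1) - gg lam (b + 1)| := by
    rcases lt_or_gt_of_ne hne with h1 | h1
    · exact mid_sep hκℓ h (by omega) (by omega) (by omega)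
    · rw [abs_sub_comm]
      exact mid_sep hκℓ h (by omega) (by omega) (by omega)
  refine floor_inj hκ (by linarith) (by linarith) ?_ hab
  have e : (1 - κ - gg lam (a + 1)) - (1 - κ - gg lam (b + 1)) =
      gg lam (b + 1) - gg lam (a + 1) := by ring
  rw [e, abs_sub_comm]
  exact hs

theorem mid_sum_bot {lam κ ℓ q : ℝ} (hκ : 0 < κ) (hκℓ : κ ≤ ℓ) {M : ℕ} (h : Mid lam κ ℓ M)
    (h0 : 0 ≤ q) (h1 : q < 1) :
    ∑ i ∈ range M, q ^ ⌊(gg lam (i + 1) - ℓ) / κ⌋₊ ≤ (1 - q)⁻¹ := by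
  apply sum_geom_inj h0 h1
  intro a ha b hb hab
  rw [mem_coe, mem_range] at ha hb
  simp only at hab
  by_contra hne
  have ga := h (a + 1) (by omega) (by omega)
  have gb := h (b + 1) (by omega) (by omega)
  have hs : κ < |gg lam (a + 1) - gg lam (b + 1)| := by
    rcases lt_or_gt_of_ne hne with h1 | h1
    · exact mid_sep hκℓ h (by omega) (by omega) (by omega)
    · rw [abs_sub_comm]
      exact mid_sep hκℓ h (by omega) (by omega) (by omega)
  refine floor_inj hκ (by linarith) (by linarith) ?_ hab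
  have e : (gg lam (a + 1) - ℓ) - (gg lam (b + 1) - ℓ) =
      gg lam (a + 1) - gg lam (b + 1) := by ring
  rw [e]
  exact hs

theorem exists_mid {lam κ ℓ : ℝ} (hκ : 0 < κ) (hκℓ : κ ≤ ℓ) :
    ∃ M, Mid lam κ ℓ M ∧ (gg lam (M + 1) ≤ ℓ ∨ 1 - κ ≤ gg lam (M + 1)) := by
  classical
  have hex : ∃ i, ¬ Mid lam κ ℓ i := by
    by_contra hcon
    push Not at hcon
    have h1 := mid_bound hκ hκℓ (hcon (⌊1 / κ⌋₊ + 1))
    have h2 := Nat.lt_floor_add_one (1 / κ)
    push_cast at h1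
    linarith
  have hpos : 0 < Nat.find hex := by
    rw [Nat.find_pos]
    push Not
    intro j h1 h2
    omega
  refine ⟨Nat.find hex - 1, ?_, ?_⟩
  · by_contra hcon
    have := Nat.find_min' hex hcon
    omega
  · have h1 := Nat.find_spec hex
    have h2 : Mid lam κ ℓ (Nat.find hex - 1) := by
      by_contra hcon
      have := Nat.find_min' hex hcon
      omega
    have e : Nat.find hex - 1 + 1 = Nat.find hex := by omega
    rw [e]
    by_contra hcon
    push Not at hcon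
    apply h1
    intro j hj1 hj2
    rcases Nat.lt_or_ge j (Nat.find hex) with h3 | h3
    · exact h2 j hj1 (by omega)
    · have : j = Nat.find hex := le_antisymm hj2 h3
      rw [this]
      exact hcon

theorem rotation {N p δ : ℝ} (hN : 1 ≤ Real.log N) (hN0 : 0 < N)
    (hp : N ^ (-δ) ≤ p) (hp2 : p ≤ 1 / 2) (hbig : 10 ^ 4 * Real.log N < N ^ (1 - δ)) :
    ∃ (M0 : ℕ) (e : ℕ → Bool) (τ : ℕ → ℝ),
      (M0 : ℝ) ≤ Real.log N ∧ τ 0 = 1 ∧ (∀ i, 0 < τ i) ∧
      (∀ i, e i = true → τ (i + 1) = N * p * τ i) ∧ (∀ i, e i = false → τ (i + 1) = p * τ i) ∧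
      (∀ i < M0, 10 ^ 4 * Real.log N ≤ τ (i + 1)) ∧
      (∑ i ∈ range M0, τ (i + 1) / N ≤ 1 / 1000) ∧
      (∑ i ∈ range M0, Real.sqrt (Real.log N / τ (i + 1)) ≤ 1 / 90) ∧
      1 / 1024 ≤ p * τ M0 ∧ p * τ M0 ≤ 10 ^ 4 * Real.log N := by
  set Λ := Real.log N with hΛ
  have hΛ0 : 0 < Λ := by linarith
  have hp0 : 0 < p := lt_of_lt_of_le (Real.rpow_pos_of_pos hN0 _) hp
  have hexpΛ : Real.exp Λ = N := Real.exp_log hN0
  have hL0 : 0 < 10 ^ 4 * Λ := by positivity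
  have hNp : N ^ (1 - δ) ≤ N * p := by
    have : N ^ (1 - δ) = N * N ^ (-δ) := by
      rw [sub_eq_add_neg, Real.rpow_add hN0, Real.rpow_one]
    rw [this]
    exact mul_le_mul_of_nonneg_left hp hN0.le
  have hLNp : 10 ^ 4 * Λ < N * p := lt_of_lt_of_le hbig hNp
  have hNp0 : 0 < N * p := by positivity
  set lam := Real.log (N * p) / Λ with hlam
  set κ := Real.log 1024 / Λ with hκ
  set ℓ := Real.log (10 ^ 4 * Λ) / Λ with hℓ
  have e1 : Real.exp (lam * Λ) = N * p := by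
    rw [hlam, div_mul_cancel₀ _ hΛ0.ne', Real.exp_log hNp0]
  have e2 : Real.exp (κ * Λ) = 1024 := by
    rw [hκ, div_mul_cancel₀ _ hΛ0.ne', Real.exp_log (by norm_num)]
  have e3 : Real.exp (ℓ * Λ) = 10 ^ 4 * Λ := by
    rw [hℓ, div_mul_cancel₀ _ hΛ0.ne', Real.exp_log hL0]
  have hlogK : 1 ≤ Real.log 1024 := by
    rw [Real.le_log_iff_exp_le (by norm_num)]
    have := Real.exp_one_lt_d9
    linarith
  have hκ0 : 0 < κ := by positivity
  have hκℓ : κ ≤ ℓ := by
    rw [hκ, hℓ]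
    apply div_le_div_of_nonneg_right _ hΛ0.le
    apply Real.log_le_log (by norm_num)
    nlinarith
  have hlam0 : 0 < lam := by
    rw [hlam]
    apply div_pos (Real.log_pos _) hΛ0
    nlinarith
  have hℓlam : ℓ < lam := by
    rw [hℓ, hlam]
    apply div_lt_div_of_pos_right _ hΛ0
    exact Real.log_lt_log hL0 hLNp
  have hlam1 : lam < 1 := by
    rw [hlam, div_lt_one hΛ0, hΛ]
    apply Real.log_lt_log hNp0
    nlinarith
  obtain ⟨M0, hmid, hend⟩ := exists_mid (lam := lam) hκ0 hκℓ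
  set τ : ℕ → ℝ := fun i => Real.exp (gg lam i * Λ) with hτ
  have hτ1 : ∀ i, 1 ≤ τ i := fun i => Real.one_le_exp (mul_nonneg (gg_nonneg _ _) hΛ0.le)
  have hτe : ∀ i, gg lam i + lam < 1 → τ (i + 1) = N * p * τ i := by
    intro i hi
    simp only [hτ]
    rw [gg_succ_lt hlam0.le hi, add_mul, Real.exp_add, e1]
    ring
  have hτt : ∀ i, ¬ gg lam i + lam < 1 → τ (i + 1) = p * τ i := by
    intro i hi
    push Not at hi
    simp only [hτ]
    have : (gg lam i + lam - 1) * Λ = gg lam i * Λ + lam * Λ - Λ := by ring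
    rw [gg_succ_ge hlam1.le hi, this, Real.exp_sub, Real.exp_add, e1, hexpΛ]
    field_simp
  refine ⟨M0, fun i => decide (gg lam i + lam < 1), τ, ?_, ?_, fun i => Real.exp_pos _, ?_, ?_,
    ?_, ?_, ?_, ?_, ?_⟩
  · refine (mid_bound hκ0 hκℓ hmid).trans ?_
    rw [hκ, one_div_div, div_le_iff₀ (by linarith)]
    nlinarith
  · simp [hτ, gg_zero]
  · intro i hi
    exact hτe i (by simpa using hi)
  · intro i hi
    exact hτt i (by simpa using hi)
  · intro i hi
    have := (hmid (i + 1) (by omega) (by omega)).1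
    rw [← e3]
    simp only [hτ]
    apply Real.exp_le_exp.mpr
    exact mul_le_mul_of_nonneg_right this.le hΛ0.le
  · have h2 : ∀ i ∈ range M0, τ (i + 1) / N ≤
        1 / 1024 * (1 / 1024 : ℝ) ^ ⌊(1 - κ - gg lam (i + 1)) / κ⌋₊ := by
      intro i hi
      rw [mem_range] at hi
      have h3 := hmid (i + 1) (by omega) (by omega)
      have h4 : (⌊(1 - κ - gg lam (i + 1)) / κ⌋₊ : ℝ) ≤ (1 - κ - gg lam (i + 1)) / κ :=
        Nat.floor_le (div_nonneg (by linarith) hκ0.le)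
      rw [le_div_iff₀ hκ0] at h4
      have e4 : (1 / 1024 : ℝ) = Real.exp (-(κ * Λ)) := by rw [Real.exp_neg, e2, one_div]
      rw [e4, ← Real.exp_nat_mul, ← Real.exp_add]
      simp only [hτ]
      rw [← hexpΛ, ← Real.exp_sub]
      apply Real.exp_le_exp.mpr
      nlinarith
    refine (sum_le_sum h2).trans ?_
    rw [← mul_sum]
    have h5 := mid_sum_top hκ0 hκℓ hmid (q := 1 / 1024) (by norm_num) (by norm_num)
    calc (1 / 1024 : ℝ) * ∑ i ∈ range M0, (1 / 1024 : ℝ) ^ ⌊(1 - κ - gg lam (i + 1)) / κ⌋₊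
        ≤ 1 / 1024 * (1 - 1 / 1024)⁻¹ := mul_le_mul_of_nonneg_left h5 (by norm_num)
      _ ≤ 1 / 1000 := by norm_num
  · have h2 : ∀ i ∈ range M0, Real.sqrt (Λ / τ (i + 1)) ≤
        1 / 100 * (1 / 32 : ℝ) ^ ⌊(gg lam (i + 1) - ℓ) / κ⌋₊ := by
      intro i hi
      rw [mem_range] at hi
      have h3 := hmid (i + 1) (by omega) (by omega)
      have h4 : (⌊(gg lam (i + 1) - ℓ) / κ⌋₊ : ℝ) ≤ (gg lam (i + 1) - ℓ) / κ :=
        Nat.floor_le (div_nonneg (by linarith) hκ0.le)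
      rw [le_div_iff₀ hκ0] at h4
      apply Real.sqrt_le_iff.mpr
      refine ⟨by positivity, ?_⟩
      have e4 : (1 / 100 * (1 / 32 : ℝ) ^ ⌊(gg lam (i + 1) - ℓ) / κ⌋₊) ^ 2 =
          1 / 10 ^ 4 * (1 / 1024 : ℝ) ^ ⌊(gg lam (i + 1) - ℓ) / κ⌋₊ := by
        rw [mul_pow, ← pow_mul, mul_comm _ 2, pow_mul]
        norm_num
      have e5 : (1 / 1024 : ℝ) = Real.exp (-(κ * Λ)) := by rw [Real.exp_neg, e2, one_div]
      rw [e4, e5, ← Real.exp_nat_mul, div_le_iff₀ (Real.exp_pos _)]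
      rw [mul_assoc, ← Real.exp_add]
      have h6 : Real.exp (ℓ * Λ) ≤ Real.exp ((⌊(gg lam (i + 1) - ℓ) / κ⌋₊ : ℝ) * -(κ * Λ) +
          gg lam (i + 1) * Λ) := by
        apply Real.exp_le_exp.mpr
        nlinarith
      rw [e3] at h6
      linarith
    refine (sum_le_sum h2).trans ?_
    rw [← mul_sum]
    have h5 := mid_sum_bot hκ0 hκℓ hmid (q := 1 / 32) (by norm_num) (by norm_num)
    calc (1 / 100 : ℝ) * ∑ i ∈ range M0, (1 / 32 : ℝ) ^ ⌊(gg lam (i + 1) - ℓ) / κ⌋₊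
        ≤ 1 / 100 * (1 - 1 / 32)⁻¹ := mul_le_mul_of_nonneg_left h5 (by norm_num)
      _ ≤ 1 / 90 := by norm_num
  · by_cases hexp : gg lam M0 + lam < 1
    · have h1 := hτe M0 hexp
      have h2 := gg_succ_lt hlam0.le hexp
      have h3 : 1 - κ ≤ gg lam (M0 + 1) := by
        rcases hend with h | h
        · have := gg_nonneg lam M0
          linarith
        · exact h
      have h4 : Real.exp ((1 - κ) * Λ) ≤ τ (M0 + 1) :=
        Real.exp_le_exp.mpr (mul_le_mul_of_nonneg_right h3 hΛ0.le)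
      rw [sub_mul, one_mul, Real.exp_sub, hexpΛ, e2, h1] at h4
      have h5 : N * (1 / 1024) ≤ N * (p * τ M0) := by linarith
      exact le_of_mul_le_mul_left h5 hN0
    · have h1 := hτt M0 hexp
      have h2 := hτ1 (M0 + 1)
      rw [h1] at h2
      linarith
  · by_cases hexp : gg lam M0 + lam < 1
    · have h1 := hτe M0 hexp
      have h2 := gg_lt_one lam (M0 + 1)
      have h4 : τ (M0 + 1) ≤ Real.exp (1 * Λ) :=
        Real.exp_le_exp.mpr (mul_le_mul_of_nonneg_right h2.le hΛ0.le)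
      rw [one_mul, hexpΛ, h1] at h4
      have h5 : N * (p * τ M0) ≤ N * 1 := by linarith
      have h6 := le_of_mul_le_mul_left h5 hN0
      nlinarith
    · have h1 := hτt M0 hexp
      have h2 := hτ1 (M0 + 1)
      rw [h1] at h2
      rcases hend with h | h
      · have h4 : τ (M0 + 1) ≤ Real.exp (ℓ * Λ) :=
          Real.exp_le_exp.mpr (mul_le_mul_of_nonneg_right h hΛ0.le)
        rw [e3, h1] at h4
        exact h4
      · exfalso
        have h4 : Real.exp ((1 - κ) * Λ) ≤ τ (M0 + 1) :=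
          Real.exp_le_exp.mpr (mul_le_mul_of_nonneg_right h hΛ0.le)
        rcases Nat.eq_zero_or_pos M0 with h0 | h0
        · subst h0
          simp only [hτ, gg_zero, zero_mul, Real.exp_zero, mul_one] at h2
          linarith
        · have h5 := (hmid M0 h0 le_rfl).2
          have h6 : τ M0 < Real.exp ((1 - κ) * Λ) :=
            Real.exp_lt_exp.mpr (mul_lt_mul_of_pos_right h5 hΛ0)
          rw [h1] at h4
          have h7 := hτ1 M0
          nlinarith

end Pool.Agent.W963.LogDepth
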