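import Pool.Agent.W963.LogDepth.Steps

set_option autoImplicit false
set_option linter.unusedSectionVars false

/-! The final step: the signatures separate all pairs. -/

namespace Pool.Agent.W963.LogDepth

open Finset Pool.Agent.W166.Gnp Classical

theorem Pr_even {α : Type} [DecidableEq α] {E Z : Finset α} (hZ : Z ⊆ E) (p : ℝ) :
    Pr E p (fun S => Even (S ∩ Z).card) = (1 + (1 - 2 * p) ^ Z.card) / 2 := by
  have h := Ex_pow_card hZ p (-1)
  have e1 : p * (-1) + (1 - p) = 1 - 2 * p := by ring
  rw [e1] at h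
  rw [← h]
  have h2 : Pr E p (fun S => Even (S ∩ Z).card) =
      Ex E p (fun S => 1 / 2 + 1 / 2 * (-1 : ℝ) ^ (S ∩ Z).card) := by
    unfold Pr
    apply Ex_congr
    intro S _
    by_cases hS : Even (S ∩ Z).card
    · rw [if_pos hS, hS.neg_one_pow]; norm_num
    · rw [if_neg hS, (Nat.not_even_iff_odd.mp hS).neg_one_pow]; norm_num
  rw [h2, Ex_add, Ex_const, Ex_smul]
  ring

variable {n : ℕ}

/-- the number of neighbours of `x` in `T_y` -/
noncomputable def cntS (V : Finset (Fin n)) (e : ℕ → Bool) (zz : ℕ → Fin n) (M0 : ℕ)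
    (S : Finset (Sym2 (Fin n))) (x y : Fin n) : ℕ :=
  ((Ts V e zz S y M0).filter (fun w => s(x, w) ∈ S)).card

theorem parity_of_eq (S : Finset (Sym2 (Fin n))) (x : Fin n) (A B : Finset (Fin n))
    (h : (S ∩ row x A).card = (S ∩ row x B).card) :
    Even (S ∩ row x ((A \ B) ∪ (B \ A))).card := by
  simp only [card_inter_row] at h ⊢
  have e1 : A.filter (fun a => s(x, a) ∈ S) =
      (A \ B).filter (fun a => s(x, a) ∈ S) ∪ (A ∩ B).filter (fun a => s(x, a) ∈ S) := by
    ext w; simp only [mem_filter, mem_union, mem_sdiff, mem_inter]; tauto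
  have e2 : B.filter (fun a => s(x, a) ∈ S) =
      (B \ A).filter (fun a => s(x, a) ∈ S) ∪ (A ∩ B).filter (fun a => s(x, a) ∈ S) := by
    ext w; simp only [mem_filter, mem_union, mem_sdiff, mem_inter]; tauto
  have e3 : ((A \ B) ∪ (B \ A)).filter (fun a => s(x, a) ∈ S) =
      (A \ B).filter (fun a => s(x, a) ∈ S) ∪ (B \ A).filter (fun a => s(x, a) ∈ S) :=
    filter_union _ _ _
  have d1 : Disjoint ((A \ B).filter (fun a => s(x, a) ∈ S)) ((A ∩ B).filter (fun a => s(x, a) ∈ S)) := by
    rw [disjoint_left]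
    intro w; simp only [mem_filter, mem_sdiff, mem_inter]; tauto
  have d2 : Disjoint ((B \ A).filter (fun a => s(x, a) ∈ S)) ((A ∩ B).filter (fun a => s(x, a) ∈ S)) := by
    rw [disjoint_left]
    intro w; simp only [mem_filter, mem_sdiff, mem_inter]; tauto
  have d3 : Disjoint ((A \ B).filter (fun a => s(x, a) ∈ S)) ((B \ A).filter (fun a => s(x, a) ∈ S)) := by
    rw [disjoint_left]
    intro w; simp only [mem_filter, mem_sdiff]; tauto
  rw [e3, card_union_of_disjoint d3]
  rw [e1, card_union_of_disjoint d1] at h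
  rw [e2, card_union_of_disjoint d2] at h
  have : ((A \ B).filter (fun a => s(x, a) ∈ S)).card = ((B \ A).filter (fun a => s(x, a) ∈ S)).card := by
    omega
  rw [this]
  exact ⟨_, rfl⟩

theorem sig_prob {V : Finset (Fin n)} {e : ℕ → Bool} {zz : ℕ → Fin n} {r τ : ℕ → ℝ} {p κ μ : ℝ}
    (M0 s R : ℕ) (xx : ℕ → Fin n) (hx : ∀ i < s, xx i ∉ V)
    (hxi : ∀ i < s, ∀ j < s, xx i = xx j → i = j) (hzx : ∀ j < M0, ∀ i < s, zz j ≠ xx i)
    (h0 : 0 ≤ p) (h12 : p ≤ 1 / 2)
    (hκ : κ ≤ p * (Real.exp (-(r M0)) * τ M0)) (hμ : p * (Real.exp (r M0) * τ M0) ≤ μ) :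
    Pr (allE n) p (fun S => Good V e zz r τ S M0 ∧ ∃ y ∈ V, ∃ y' ∈ V, y' ≠ y ∧
      ∀ i < s, ¬ (cntS V e zz M0 S (xx i) y ≠ cntS V e zz M0 S (xx i) y' ∧
        cntS V e zz M0 S (xx i) y ≤ R ∧ cntS V e zz M0 S (xx i) y' ≤ R)) ≤
    V.card * V.card * ((1 + Real.exp (-(2 * κ))) / 2) ^ s +
      V.card * s * Real.exp (3 * μ - R) := by
  have h1 : p ≤ 1 := by linarith
  have hq0 : 0 ≤ (1 + Real.exp (-(2 * κ))) / 2 := by positivity
  set U : Finset (Sym2 (Fin n)) := (range s).biUnion (fun i => row (xx i) V) with hU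
  have hUE : U ⊆ allE n := by
    rw [hU, biUnion_subset]
    intro i hi
    exact row_sub_allE (hx i (mem_range.mp hi))
  have hRU : ∀ i ∈ range s, row (xx i) V ⊆ U := fun i hi => subset_biUnion_of_mem (fun i => row (xx i) V) hi
  have hdis : ((range s : Finset ℕ) : Set ℕ).PairwiseDisjoint (fun i => row (xx i) V) := by
    intro i hi j hj hij
    rw [mem_coe, mem_range] at hi hj
    exact row_disjoint (fun h => hij (hxi i hi j hj h)) (hx i hi)
  apply Pr_fub0 (E2 := U) hUE h0 h1
  intro S1 hS1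
  have hfresh : ∀ S2, S2 ⊆ U → ∀ y ∈ V, Ts V e zz (S1 ∪ S2) y M0 = Ts V e zz S1 y M0 := by
    intro S2 hS2 y hy
    apply Ts_fresh hy M0 ((range s).image xx)
    · intro x hx'
      rw [mem_image] at hx'
      obtain ⟨i, hi, rfl⟩ := hx'
      exact hx i (mem_range.mp hi)
    · intro j hj hmem
      rw [mem_image] at hmem
      obtain ⟨i, hi, h⟩ := hmem
      exact hzx j hj i (mem_range.mp hi) h.symm
    · intro q hq
      have := hS2 hq
      rw [hU, mem_biUnion] at this
      obtain ⟨i, hi, hqi⟩ := this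
      exact ⟨xx i, mem_image_of_mem _ hi, hqi⟩
  have hS1z : ∀ i < s, ∀ w ∈ V, s(xx i, w) ∉ S1 := by
    intro i hi w hw hmem
    have := hS1 hmem
    rw [mem_sdiff] at this
    exact this.2 (hRU i (mem_range.mpr hi) (mem_row.mpr ⟨w, hw, rfl⟩))
  have hcnt : ∀ S2, S2 ⊆ U → ∀ y ∈ V, ∀ i < s, cntS V e zz M0 (S1 ∪ S2) (xx i) y =
      (S2 ∩ row (xx i) (Ts V e zz S1 y M0)).card := by
    intro S2 hS2 y hy i hi
    unfold cntS
    rw [hfresh S2 hS2 y hy, card_inter_row]
    congr 1
    apply filter_congr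
    intro w hw
    rw [mem_union]
    constructor
    · rintro (h | h)
      · exact absurd h (hS1z i hi w (Ts_sub hy M0 hw))
      · exact h
    · exact Or.inr
  have hgi : ∀ S2, S2 ⊆ U → (Good V e zz r τ (S1 ∪ S2) M0 → Good V e zz r τ S1 M0) := by
    intro S2 hS2 h y hy
    have h2 := h y hy
    rw [hfresh S2 hS2 y hy] at h2
    refine ⟨h2.1, fun y' hy' hne => ?_⟩
    have h3 := h2.2 y' hy' hne
    rwa [hfresh S2 hS2 y' hy'] at h3
  by_cases hG : Good V e zz r τ S1 M0
  swap
  · rw [Pr_false]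
    · positivity
    · rintro S2 hS2 ⟨h, _⟩
      exact hG (hgi S2 hS2 h)
  have hbad : Pr U p (fun S2 => Good V e zz r τ (S1 ∪ S2) M0 ∧ ∃ y ∈ V, ∃ y' ∈ V, y' ≠ y ∧
      ∀ i < s, ¬ (cntS V e zz M0 (S1 ∪ S2) (xx i) y ≠ cntS V e zz M0 (S1 ∪ S2) (xx i) y' ∧
        cntS V e zz M0 (S1 ∪ S2) (xx i) y ≤ R ∧ cntS V e zz M0 (S1 ∪ S2) (xx i) y' ≤ R)) ≤
      Pr U p (fun S2 =>
        (∃ x ∈ (V ×ˢ V).filter (fun x => x.2 ≠ x.1), ∀ i ∈ range s,
          Even ((S2 ∩ row (xx i) V) ∩ row (xx i) ((Ts V e zz S1 x.1 M0 \ Ts V e zz S1 x.2 M0) ∪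
            (Ts V e zz S1 x.2 M0 \ Ts V e zz S1 x.1 M0))).card) ∨
        (∃ x ∈ V ×ˢ range s, R ≤ (S2 ∩ row (xx x.2) (Ts V e zz S1 x.1 M0)).card)) := by
    apply Pr_mono h0 h1
    rintro S2 hS2 ⟨_, y, hy, y', hy', hne, h⟩
    by_cases hbig : ∃ x ∈ V ×ˢ range s, R ≤ (S2 ∩ row (xx x.2) (Ts V e zz S1 x.1 M0)).card
    · exact Or.inr hbig
    · left
      push Not at hbig
      refine ⟨(y, y'), by rw [mem_filter, mem_product]; exact ⟨⟨hy, hy'⟩, hne⟩, ?_⟩
      intro i hi
      simp only
      rw [inter_row_row S2 (xx i) (union_subset (sdiff_subset.trans (Ts_sub hy M0))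
        (sdiff_subset.trans (Ts_sub hy' M0)))]
      apply parity_of_eq
      by_contra hneq
      have hi' := mem_range.mp hi
      apply h i hi'
      rw [hcnt S2 hS2 y hy i hi', hcnt S2 hS2 y' hy' i hi']
      exact ⟨hneq, (hbig (y, i) (mem_product.mpr ⟨hy, hi⟩)).le,
        (hbig (y', i) (mem_product.mpr ⟨hy', hi⟩)).le⟩
  refine hbad.trans ((Pr_or_le h0 h1 _ _).trans (add_le_add ?_ ?_))
  · refine (Pr_exists_le h0 h1 _ _).trans ?_
    calc _ ≤ ∑ _x ∈ (V ×ˢ V).filter (fun x => x.2 ≠ x.1), ((1 + Real.exp (-(2 * κ))) / 2) ^ s := by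
          apply sum_le_sum
          rintro ⟨y, y'⟩ hx'
          rw [mem_filter, mem_product] at hx'
          simp only at hx' ⊢
          obtain ⟨⟨hy, hy'⟩, hne⟩ := hx'
          set A := Ts V e zz S1 y M0 with hA
          set B := Ts V e zz S1 y' M0 with hB
          have hAV : A ⊆ V := Ts_sub hy M0
          have hBV : B ⊆ V := Ts_sub hy' M0
          rw [Pr_forall p (range s) (fun i => row (xx i) V) hRU hdis
            (fun i S => Even (S ∩ row (xx i) ((A \ B) ∪ (B \ A))).card)]
          calc ∏ v ∈ range s, Pr (row (xx v) V) p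
                (fun S => Even (S ∩ row (xx v) ((A \ B) ∪ (B \ A))).card)
              ≤ ∏ _v ∈ range s, ((1 + Real.exp (-(2 * κ))) / 2) := by
                apply prod_le_prod
                · intro v _; exact Pr_nonneg h0 h1 _
                · intro v _
                  rw [Pr_even (row_mono _ (union_subset (sdiff_subset.trans hAV)
                    (sdiff_subset.trans hBV)))]
                  have h3 : (1 - 2 * p) ^ (row (xx v) ((A \ B) ∪ (B \ A))).card ≤
                      Real.exp (-(2 * κ)) := by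
                    rw [card_row]
                    calc (1 - 2 * p) ^ ((A \ B) ∪ (B \ A)).card
                        ≤ (1 - 2 * p) ^ (A \ B).card := by
                          apply pow_le_pow_of_le_one (by linarith) (by linarith)
                          exact card_le_card subset_union_left
                      _ ≤ (Real.exp (-(2 * p))) ^ (A \ B).card := by
                          apply pow_le_pow_left₀ (by linarith)
                          have := Real.add_one_le_exp (-(2 * p))
                          linarith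
                      _ = Real.exp (-(2 * (p * (A \ B).card))) := by
                          rw [← Real.exp_nat_mul]; congr 1; ring
                      _ ≤ Real.exp (-(2 * κ)) := by
                          apply Real.exp_le_exp.mpr
                          have h4 := mul_le_mul_of_nonneg_left ((hG y hy).2 y' hy' hne) h0
                          linarith
                  linarith
            _ = ((1 + Real.exp (-(2 * κ))) / 2) ^ s := by rw [prod_const, card_range]
      _ = (((V ×ˢ V).filter (fun x => x.2 ≠ x.1)).card : ℝ) * ((1 + Real.exp (-(2 * κ))) / 2) ^ s := by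
          rw [sum_const, nsmul_eq_mul]
      _ ≤ V.card * V.card * ((1 + Real.exp (-(2 * κ))) / 2) ^ s := by
          apply mul_le_mul_of_nonneg_right _ (by positivity)
          have := card_filter_le (V ×ˢ V) (fun x => x.2 ≠ x.1)
          rw [card_product] at this
          exact_mod_cast this
  · refine (Pr_exists_le h0 h1 _ _).trans ?_
    calc _ ≤ ∑ _x ∈ V ×ˢ range s, Real.exp (3 * μ - R) := by
          apply sum_le_sum
          rintro ⟨y, i⟩ hx'
          rw [mem_product] at hx'
          simp only at hx' ⊢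
          obtain ⟨hy, hi⟩ := hx'
          apply card_large ((row_mono _ (Ts_sub hy M0)).trans (hRU i hi)) h0 h1
          rw [card_row]
          exact (mul_le_mul_of_nonneg_left (hG y hy).1 h0).trans hμ
      _ = V.card * s * Real.exp (3 * μ - R) := by
          rw [sum_const, nsmul_eq_mul, card_product, card_range]
          push_cast
          ring

end Pool.Agent.W963.LogDepth
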