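import Pool.Agent.W963.LogDepth.Tproc
import Pool.Agent.W963.LogDepth.Sig
import Pool.Agent.W963.LogDepth.Rot

set_option autoImplicit false
set_option linter.unusedSectionVars false

/-! Assembly for a fixed `n`. -/

namespace Pool.Agent.W963.LogDepth

open Finset Pool.Agent.W166.Gnp Classical

variable {n : ℕ}

theorem adj_iff {S : Finset (Sym2 (Fin n))} (hS : S ⊆ allE n) {a b : Fin n} :
    (SimpleGraph.fromEdgeSet (S : Set (Sym2 (Fin n)))).Adj a b ↔ s(a, b) ∈ S := by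
  rw [SimpleGraph.fromEdgeSet_adj, mem_coe]
  constructor
  · exact fun h => h.1
  · intro h
    exact ⟨h, mem_allE.mp (hS h)⟩

theorem Tp_iff {m : ℕ} {V : Finset (Fin n)} {c : Fin m → Fin n} (hV : ∀ w, w ∈ V ↔ ∀ k, w ≠ c k)
    (e : ℕ → Bool) (z : ℕ → Fin m) {S : Finset (Sym2 (Fin n))} (hS : S ⊆ allE n) (y : Fin n) :
    ∀ (i : ℕ) (w : Fin n), Tp m e z i n (SimpleGraph.fromEdgeSet (S : Set (Sym2 (Fin n)))) c y w ↔
      w ∈ Ts V e (fun i => c (z i)) S y i := by
  intro i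
  induction i with
  | zero => intro w; simp [Tp, Ts]
  | succ i ih =>
    intro w
    by_cases he : e i = true
    · simp only [Tp, Ts, he, if_true, mem_filter, ih, adj_iff hS, hV]
      tauto
    · have he' : e i = false := by simpa using he
      have hadj : (SimpleGraph.fromEdgeSet (S : Set (Sym2 (Fin n)))).Adj (c (z i)) w ↔
          s(c (z i), w) ∈ S := adj_iff hS
      simp only [Tp, Ts, he', ih, hadj, if_false, Bool.false_eq_true, mem_filter]

theorem cntT_eq {m : ℕ} {V : Finset (Fin n)} {c : Fin m → Fin n} (hV : ∀ w, w ∈ V ↔ ∀ k, w ≠ c k)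
    (e : ℕ → Bool) (z : ℕ → Fin m) {S : Finset (Sym2 (Fin n))} (hS : S ⊆ allE n) (y : Fin n)
    (M0 : ℕ) (x : Fin m) :
    cntT m e z M0 x n (SimpleGraph.fromEdgeSet (S : Set (Sym2 (Fin n)))) c y =
      cntS V e (fun i => c (z i)) M0 S (c x) y := by
  unfold cntT cntS
  congr 1
  ext w
  simp only [mem_filter, mem_univ, true_and, Tp_iff hV e z hS, adj_iff hS]

theorem exp_neg_four_log (hn : 0 < n) : Real.exp (-(4 * Real.log n)) = 1 / (n : ℝ) ^ 4 := by
  have hn' : (0 : ℝ) < n := by exact_mod_cast hn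
  rw [Real.exp_neg, one_div]
  congr 1
  have : (4 : ℝ) * Real.log n = ((4 : ℕ) : ℝ) * Real.log n := by norm_num
  rw [this, Real.exp_nat_mul, Real.exp_log hn']

theorem numerics {Λ N m : ℝ} (hΛ : 1 ≤ Λ) (hN : 2 * 10 ^ 6 * Λ ^ 3 ≤ N)
    (hm : m ≤ 16386 * Λ) : m * (40 * Λ) ≤ N ∧ 2 * m ≤ N ∧ 16385 * Λ ≤ N ∧ Λ ≤ N := by
  have h1 : Λ ≤ Λ ^ 2 := by nlinarith
  have h2 : Λ ^ 2 ≤ Λ ^ 3 := by nlinarith [mul_nonneg (sub_nonneg.mpr hΛ) (sq_nonneg Λ)]
  have h3 : m * (40 * Λ) ≤ 16386 * Λ * (40 * Λ) := mul_le_mul_of_nonneg_right hm (by linarith)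
  refine ⟨?_, ?_, ?_, ?_⟩
  · have h4 : 16386 * Λ * (40 * Λ) = 655440 * Λ ^ 2 := by ring
    linarith
  · linarith
  · linarith
  · linarith

theorem bnd2 {N v : ℝ} (hN : 1 ≤ N) (hv0 : 0 ≤ v) (hv : v ≤ N) {M0 : ℝ} (hM0 : 0 ≤ M0) (hM : M0 ≤ N) :
    M0 * ((v + v * v) * (1 / N ^ 4)) ≤ 2 / N := by
  have hN0 : 0 < N := by linarith
  calc M0 * ((v + v * v) * (1 / N ^ 4))
      ≤ N * ((N * N + N * N) * (1 / N ^ 4)) := by
        apply mul_le_mul hM _ (by positivity) hN0.le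
        apply mul_le_mul_of_nonneg_right _ (by positivity)
        have g1 : v * v ≤ N * N := mul_le_mul hv hv hv0 hN0.le
        have g2 : v ≤ N * N := hv.trans (le_mul_of_one_le_left hN0.le hN)
        linarith
    _ = 2 / N := by field_simp; norm_num

theorem bnd3 {N v w x : ℝ} (hN : 1 ≤ N) (hv0 : 0 ≤ v) (hv : v ≤ N) (hw0 : 0 ≤ w) (hw : w ≤ N)
    (hx0 : 0 ≤ x) (hx : x ≤ 1 / N ^ 4) : v * w * x ≤ 1 / N := by
  have hN0 : 0 < N := by linarith
  calc v * w * x ≤ N * N * (1 / N ^ 4) := by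
        apply mul_le_mul _ hx hx0 (by positivity)
        exact mul_le_mul hv hw hw0 hN0.le
    _ ≤ 1 / N := by
        rw [mul_one_div, div_le_div_iff₀ (by positivity) hN0, one_mul]
        have h5 : N ^ 3 ≤ N ^ 4 := pow_le_pow_right₀ hN (by norm_num)
        nlinarith

theorem bnd4 {N : ℝ} (hN : 1 ≤ N) : 1 / N ^ 3 + 8 / N ^ 3 ≤ 9 / N := by
  have hN0 : 0 < N := by linarith
  rw [← add_div]
  rw [div_le_div_iff₀ (by positivity) hN0]
  have h5 : N ≤ N ^ 3 := by
    calc N = N ^ 1 := (pow_one _).symm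
      _ ≤ _ := pow_le_pow_right₀ hN (by norm_num)
  linarith

theorem sig_pow {Λ : ℝ} {s : ℕ} (hs1 : 16384 * Λ ≤ s) :
    ((1 + Real.exp (-(2 * (1 / 2048)))) / 2) ^ s ≤ Real.exp (-(4 * Λ)) := by
  have h3 := exp_neg_le_of_le_one (η := 2 * (1 / 2048)) (by norm_num) (by norm_num)
  have h4 : (1 + Real.exp (-(2 * (1 / 2048)))) / 2 ≤ Real.exp (-(1 / 4096)) := by
    have := Real.add_one_le_exp (-(1 / 4096 : ℝ))
    linarith
  calc ((1 + Real.exp (-(2 * (1 / 2048)))) / 2) ^ s ≤ (Real.exp (-(1 / 4096))) ^ s :=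
        pow_le_pow_left₀ (by positivity) h4 _
    _ = Real.exp (s * (-(1 / 4096))) := by rw [← Real.exp_nat_mul]
    _ ≤ Real.exp (-(4 * Λ)) := by
        apply Real.exp_le_exp.mpr
        linarith

theorem main_n {p δ : ℝ} (hΛ : 1 ≤ Real.log n) (hp : (n : ℝ) ^ (-δ) ≤ p)
    (hp2 : p ≤ 1 / 2) (hbig : 10 ^ 6 * Real.log n ^ 3 ≤ (n : ℝ) ^ (1 - δ)) :
    Pr (allE n) p (fun S => ¬ ∃ k : ℕ, (k : ℝ) ≤ 10 ^ 5 * Real.log n ∧
      Depth n (SimpleGraph.fromEdgeSet (S : Set (Sym2 (Fin n)))) k) ≤ 13 / n := by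
  set Λ := Real.log n with hΛdef
  have hn0 : 0 < n := by
    rcases Nat.eq_zero_or_pos n with h | h
    · subst h; rw [hΛdef] at hΛ; simp at hΛ; linarith
    · exact h
  have hn1 : 1 < n := by
    rcases Nat.lt_or_ge 1 n with h | h
    · exact h
    · have : n = 1 := by omega
      subst this; rw [hΛdef] at hΛ; simp at hΛ; linarith
  have hn' : (0 : ℝ) < n := by exact_mod_cast hn0
  have hn1' : (1 : ℝ) ≤ n := by exact_mod_cast hn0
  have hΛ0 : 0 < Λ := by linarith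
  have hp0 : 0 < p := lt_of_lt_of_le (Real.rpow_pos_of_pos hn' _) hp
  have h1 : p ≤ 1 := by linarith
  have hnp : (n : ℝ) ^ (1 - δ) ≤ n * p := by
    have : (n : ℝ) ^ (1 - δ) = n * (n : ℝ) ^ (-δ) := by
      rw [sub_eq_add_neg, Real.rpow_add hn', Real.rpow_one]
    rw [this]
    exact mul_le_mul_of_nonneg_left hp hn'.le
  have hΛ2 : Λ ≤ Λ ^ 2 := by nlinarith
  have hΛ3 : Λ ^ 2 ≤ Λ ^ 3 := by nlinarith [mul_nonneg (sub_nonneg.mpr hΛ) (sq_nonneg Λ)]
  have hnpbig : 10 ^ 6 * Λ ^ 3 ≤ n * p := hbig.trans hnp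
  have hnbig : 2 * 10 ^ 6 * Λ ^ 3 ≤ n := by
    have : (n : ℝ) * p ≤ n * (1 / 2) := mul_le_mul_of_nonneg_left hp2 hn'.le
    linarith
  obtain ⟨M0, e, τ, hM0, hτ00, hτ0, hτe, hτt, hτL, hsum1, hsum2, hlow, hup⟩ :=
    rotation (N := (n : ℝ)) hΛ hn' hp hp2 (by
      refine lt_of_lt_of_le ?_ hbig
      nlinarith)
  -- parameters
  obtain ⟨s, hs⟩ : ∃ s : ℕ, s = ⌈16384 * Λ⌉₊ := ⟨_, rfl⟩
  obtain ⟨R, hR⟩ : ∃ R : ℕ, R = ⌈60004 * Λ⌉₊ := ⟨_, rfl⟩
  have hs1 : 16384 * Λ ≤ s := by rw [hs]; exact Nat.le_ceil _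
  have hs2 : (s : ℝ) ≤ 16385 * Λ := by
    have := Nat.ceil_lt_add_one (a := 16384 * Λ) (by positivity)
    rw [← hs] at this
    linarith
  have hR1 : 60004 * Λ ≤ R := by rw [hR]; exact Nat.le_ceil _
  have hR2 : (R : ℝ) ≤ 60005 * Λ := by
    have := Nat.ceil_lt_add_one (a := 60004 * Λ) (by positivity)
    rw [← hR] at this
    linarith
  obtain ⟨m, hm⟩ : ∃ m : ℕ, m = M0 + s := ⟨_, rfl⟩
  have hmR : (m : ℝ) ≤ 16386 * Λ := by rw [hm]; push_cast; linarith
  have hspos : 0 < s := by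
    have : (0 : ℝ) < s := lt_of_lt_of_le (by positivity) hs1
    exact_mod_cast this
  have hmpos : 0 < m := by omega
  obtain ⟨hnum1, hnum2, hnum3, hnum4⟩ := numerics hΛ hnbig hmR
  have hm0 : (0 : ℝ) ≤ m := Nat.cast_nonneg _
  have hmn : m ≤ n := by
    have : (m : ℝ) ≤ n := by linarith
    exact_mod_cast this
  let c : Fin m → Fin n := Fin.castLE hmn
  let z : ℕ → Fin m := fun i => ⟨i % m, Nat.mod_lt _ hmpos⟩
  have hzval : ∀ i < m, ((c (z i)).val) = i := by
    intro i hi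
    show i % m = i
    exact Nat.mod_eq_of_lt hi
  let V : Finset (Fin n) := univ.filter (fun v => m ≤ v.val)
  have hV : ∀ w, w ∈ V ↔ ∀ k, w ≠ c k := by
    intro w
    simp only [V, mem_filter, mem_univ, true_and]
    constructor
    · intro h k hk
      have := k.isLt
      rw [hk] at h
      simp only [c, Fin.val_castLE] at h
      omega
    · intro h
      by_contra hlt
      push Not at hlt
      exact h ⟨w.val, hlt⟩ (Fin.ext rfl)
  have hcV : ∀ k, c k ∉ V := fun k h => (hV _).mp h k rfl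
  have hVcard : (n : ℝ) - m ≤ V.card := by
    have h2 : (univ : Finset (Fin n)) ⊆ V ∪ univ.image c := by
      intro w _
      rw [mem_union, mem_image]
      by_cases hw : w ∈ V
      · exact Or.inl hw
      · right
        rw [hV] at hw
        push Not at hw
        obtain ⟨k, hk⟩ := hw
        exact ⟨k, mem_univ _, hk.symm⟩
    have h3 := (card_le_card h2).trans (card_union_le _ _)
    have h4 : (univ.image c).card ≤ m := by
      refine card_image_le.trans ?_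
      rw [card_univ, Fintype.card_fin]
    rw [card_univ, Fintype.card_fin] at h3
    have h5 : n ≤ V.card + m := by omega
    have h6 : (n : ℝ) ≤ V.card + m := by exact_mod_cast h5
    linarith
  have hVn : (V.card : ℝ) ≤ n := by
    have := card_le_univ V
    rw [Fintype.card_fin] at this
    exact_mod_cast this
  let zz : ℕ → Fin n := fun i => c (z i)
  let xx : ℕ → Fin n := fun i => c (z (M0 + i))
  let ε : ℝ := 1 / (40 * Λ)
  have hε0 : 0 < ε := by positivity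
  have hε1 : ε ≤ 1 := by
    simp only [ε]
    rw [div_le_one (by positivity)]
    linarith
  have hεbig : 112 * Λ ≤ ε ^ 2 * (n * p) := by
    have h2 : ε ^ 2 * (10 ^ 6 * Λ ^ 3) ≤ ε ^ 2 * (n * p) :=
      mul_le_mul_of_nonneg_left hnpbig (sq_nonneg ε)
    have h3 : ε ^ 2 * (10 ^ 6 * Λ ^ 3) = 625 * Λ := by
      simp only [ε]
      field_simp
      norm_num
    linarith
  let η : ℕ → ℝ := fun i => 2 * (ε + m / n + 6 * (τ (i + 1) / n)) + 8 * Real.sqrt (Λ / τ (i + 1))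
  have hη0 : ∀ i, 0 ≤ η i := by
    intro i
    have := hτ0 (i + 1)
    have := Real.sqrt_nonneg (Λ / τ (i + 1))
    simp only [η]
    positivity
  let r : ℕ → ℝ := fun i => ∑ j ∈ range i, η j
  have hrs : ∀ i, r (i + 1) = r i + η i := fun i => sum_range_succ _ _
  have hr0 : ∀ i, 0 ≤ r i := fun i => sum_nonneg (fun j _ => hη0 j)
  have hmnn : (m : ℝ) / n ≤ 1 / (40 * Λ) := by
    rw [div_le_div_iff₀ hn' (by positivity)]
    linarith
  have hrM : r M0 ≤ 1 / 4 := by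
    have h2 : r M0 = M0 * (2 * (ε + m / n)) + 12 * ∑ i ∈ range M0, τ (i + 1) / n +
        8 * ∑ i ∈ range M0, Real.sqrt (Λ / τ (i + 1)) := by
      simp only [r, η]
      rw [mul_sum, mul_sum, sum_add_distrib]
      have : ∀ i ∈ range M0, 2 * (ε + (m : ℝ) / n + 6 * (τ (i + 1) / n)) =
          2 * (ε + m / n) + 12 * (τ (i + 1) / n) := fun i _ => by ring
      rw [sum_congr rfl this, sum_add_distrib, sum_const, card_range, nsmul_eq_mul]
    have h3 : (M0 : ℝ) * (2 * (ε + m / n)) ≤ Λ * (2 * (1 / (40 * Λ) + 1 / (40 * Λ))) := by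
      apply mul_le_mul hM0 _ (by positivity) hΛ0.le
      simp only [ε]
      linarith
    have h4 : Λ * (2 * (1 / (40 * Λ) + 1 / (40 * Λ))) = 1 / 10 := by
      field_simp
      norm_num
    rw [h2]
    linarith
  have hrmono : ∀ i ≤ M0, r i ≤ r M0 := by
    intro i hi
    exact sum_le_sum_of_subset_of_nonneg (range_mono hi) (fun j _ _ => hη0 j)
  have hηle : ∀ i < M0, η i ≤ 1 := by
    intro i hi
    have h2 := hrmono (i + 1) hi
    rw [hrs] at h2
    have := hr0 i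
    linarith
  have key1 := good_prob (V := V) (e := e) (zz := zz) (r := r) (τ := τ) (η := η) (p := p) (ε := ε)
    (Λ := Λ) (mm := m) M0 hn0 hp0.le h1 (by linarith) hε0.le (Nat.cast_nonneg _) hVcard
    (fun i _ => hcV _)
    (fun i hi j hj h => by
      have h2 := congrArg Fin.val h
      simp only [zz] at h2
      rw [hzval j (by omega), hzval i (by omega)] at h2
      omega)
    (fun i _ => hη0 i) hηle (by simp [r]) (fun i _ => hrs i)
    (fun i hi => ⟨hr0 i, (hrmono i hi).trans hrM⟩) hτ00 (fun i _ => hτ0 i)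
    (fun i _ => hτe i) (fun i _ => hτt i)
    (fun i _ => by
      have := Real.sqrt_nonneg (Λ / τ (i + 1))
      simp only [η]
      linarith)
    (fun i _ => by
      have h2 := hτ0 (i + 1)
      have h3 : 8 * Real.sqrt (Λ / τ (i + 1)) ≤ η i := by
        simp only [η]
        have : 0 ≤ 2 * (ε + (m : ℝ) / n + 6 * (τ (i + 1) / n)) := by positivity
        linarith
      have h4 : (8 * Real.sqrt (Λ / τ (i + 1))) ^ 2 ≤ (η i) ^ 2 :=
        pow_le_pow_left₀ (by positivity) h3 2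
      rw [mul_pow, Real.sq_sqrt (by positivity)] at h4
      have h5 := mul_le_mul_of_nonneg_right h4 h2.le
      have h6 : 8 ^ 2 * (Λ / τ (i + 1)) * τ (i + 1) = 64 * Λ := by
        field_simp
        norm_num
      linarith)
  have hexp1 : Real.exp (r M0) ≤ 2 := by
    have h2 := Real.abs_exp_sub_one_sub_id_le (x := r M0) (by
      rw [abs_of_nonneg (hr0 _)]; linarith)
    have h3 := (abs_le.mp h2).2
    have h4 := hr0 M0
    have h5 : r M0 ^ 2 ≤ (1 / 4) ^ 2 := pow_le_pow_left₀ h4 hrM 2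
    norm_num at h5
    linarith
  have hexp2 : 1 / 2 ≤ Real.exp (-(r M0)) := by
    have := Real.add_one_le_exp (-(r M0))
    linarith
  have hpτ : 0 < p * τ M0 := mul_pos hp0 (hτ0 M0)
  have key2 := sig_prob (V := V) (e := e) (zz := zz) (r := r) (τ := τ) (p := p) (κ := 1 / 2048)
    (μ := 20000 * Λ) M0 s R xx (fun i _ => hcV _)
    (fun i hi j hj h => by
      have h2 := congrArg Fin.val h
      simp only [xx] at h2
      rw [hzval _ (by omega), hzval _ (by omega)] at h2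
      omega)
    (fun j hj i hi h => by
      have h2 := congrArg Fin.val h
      simp only [xx, zz] at h2
      rw [hzval _ (by omega), hzval _ (by omega)] at h2
      omega)
    hp0.le hp2
    (by
      have h2 := mul_le_mul_of_nonneg_right hexp2 hpτ.le
      have h3 : p * (Real.exp (-(r M0)) * τ M0) = Real.exp (-(r M0)) * (p * τ M0) := by ring
      rw [h3]
      linarith)
    (by
      have h2 := mul_le_mul_of_nonneg_right hexp1 hpτ.le
      have h3 : p * (Real.exp (r M0) * τ M0) = Real.exp (r M0) * (p * τ M0) := by ring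
      rw [h3]
      linarith)
  have hdeg := degree_bound hn1 V hp0.le h1 hε0.le hε1 hεbig
  have hexp := expansion_bound hn1 V (by
    have h2 : (n : ℝ) ≤ 2 * V.card := by linarith
    exact_mod_cast h2) hp0.le h1 hε0.le hε1 hεbig
  -- the union of the bad events
  have hmain : Pr (allE n) p (fun S => ¬ ∃ k : ℕ, (k : ℝ) ≤ 10 ^ 5 * Λ ∧
      Depth n (SimpleGraph.fromEdgeSet (S : Set (Sym2 (Fin n)))) k) ≤
      Pr (allE n) p (fun S => ((∃ v ∈ V, (1 + ε) * (n * p) ≤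
        (((V.erase v).filter (fun w => s(v, w) ∈ S)).card : ℝ)) ∨
      (∃ D ⊆ V, ∃ B ⊆ V, Disjoint D B ∧ D.Nonempty ∧ B.card ≤ 2 * D.card ∧
        p * (D.card + B.card) ≤ 1 / 2 ∧ 4 * (D.card + B.card) ≤ n ∧
        ((hitmiss S (V \ (D ∪ B)) D B).card : ℝ) ≤
          (1 - ε) * (p * D.card * (1 - p * (D.card + B.card)) * (V \ (D ∪ B)).card))) ∨
      ((¬ Good V e zz r τ S M0 ∧ DegOK V p ε S ∧ ExpOK V p ε S) ∨
      (Good V e zz r τ S M0 ∧ ∃ y ∈ V, ∃ y' ∈ V, y' ≠ y ∧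
        ∀ i < s, ¬ (cntS V e zz M0 S (xx i) y ≠ cntS V e zz M0 S (xx i) y' ∧
          cntS V e zz M0 S (xx i) y ≤ R ∧ cntS V e zz M0 S (xx i) y' ≤ R)))) := by
    apply Pr_mono hp0.le h1
    intro S hS hnot
    by_contra hcon
    rw [not_or, not_or, not_or] at hcon
    obtain ⟨⟨hc1, hc2⟩, hc3, hc4⟩ := hcon
    have hgood : Good V e zz r τ S M0 := by
      by_contra hg
      exact hc3 ⟨hg, hc1, hc2⟩
    apply hnot
    refine ⟨M0 + R + 2 + m, ?_, ?_⟩
    · push_cast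
      linarith
    · apply depth_of_counts _ c e z
      intro y y' hne hy hy'
      have hyV : y ∈ V := (hV y).mpr hy
      have hyV' : y' ∈ V := (hV y').mpr hy'
      by_contra hno
      apply hc4
      refine ⟨hgood, y, hyV, y', hyV', hne.symm, ?_⟩
      intro i _ h2
      apply hno
      refine ⟨z (M0 + i), ?_⟩
      rw [cntT_eq hV e z hS, cntT_eq hV e z hS]
      exact h2
  refine hmain.trans ?_
  refine (Pr_or_le hp0.le h1 _ _).trans ?_
  have b1 := (Pr_or_le hp0.le h1 _ _).trans (add_le_add hdeg hexp)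
  have b2 := (Pr_or_le hp0.le h1 _ _).trans (add_le_add key1 key2)
  refine (add_le_add b1 b2).trans ?_
  -- numerics
  have hsn : (s : ℝ) ≤ n := by linarith
  have hMn : (M0 : ℝ) ≤ n := by linarith
  have hV0 : (0 : ℝ) ≤ V.card := Nat.cast_nonneg _
  have e4 := exp_neg_four_log hn0
  have c1 : (M0 : ℝ) * (((V.card : ℝ) + V.card * V.card) * Real.exp (-(4 * Λ))) ≤ (2 : ℝ) / n := by
    rw [e4]
    exact bnd2 hn1' hV0 hVn (Nat.cast_nonneg _) hMn
  have c2 : (V.card : ℝ) * V.card * ((1 + Real.exp (-(2 * (1 / 2048)))) / 2) ^ s ≤ 1 / n := by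
    have h2 := sig_pow hs1
    rw [e4] at h2
    exact bnd3 hn1' hV0 hVn hV0 hVn (by positivity) h2
  have c3 : (V.card : ℝ) * s * Real.exp (3 * (20000 * Λ) - R) ≤ 1 / n := by
    have h2 : Real.exp (3 * (20000 * Λ) - R) ≤ 1 / (n : ℝ) ^ 4 := by
      rw [← e4]
      apply Real.exp_le_exp.mpr
      linarith
    exact bnd3 hn1' hV0 hVn (Nat.cast_nonneg _) hsn (Real.exp_pos _).le h2
  have c4 := bnd4 hn1'
  have e5 : (13 : ℝ) / n = 9 / n + (2 / n + (1 / n + 1 / n)) := by ring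
  rw [e5]
  exact add_le_add c4 (add_le_add c1 (add_le_add c2 c3))

end Pool.Agent.W963.LogDepth
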