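import Pool.Agent.W166.Gnp.Row

set_option autoImplicit false
set_option linter.unusedSectionVars false

/-! Chernoff bounds for the product measure. -/

namespace Pool.Agent.W963.LogDepth

open Finset Pool.Agent.W166.Gnp

variable {α : Type} [DecidableEq α]

theorem Ex_pow_card {E Z : Finset α} (hZ : Z ⊆ E) (p x : ℝ) :
    Ex E p (fun S => x ^ (S ∩ Z).card) = (p * x + (1 - p)) ^ Z.card := by
  rw [Ex_marg (E1 := Z) hZ]
  · unfold Ex
    rw [← Finset.sum_pow_mul_eq_add_pow]
    apply sum_congr rfl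
    intro S hS
    rw [mem_powerset] at hS
    beta_reduce
    rw [inter_eq_left.mpr hS, mul_pow]
    ring
  · intro S _
    rw [inter_assoc, inter_self]

/-- upper tail, small deviations -/
theorem card_upper {E Z : Finset α} (hZ : Z ⊆ E) {p : ℝ} (h0 : 0 ≤ p) (h1 : p ≤ 1) {ε μ : ℝ}
    (he : 0 ≤ ε) (he1 : ε ≤ 1) (hμ : p * Z.card ≤ μ) :
    Pr E p (fun S => (1 + ε) * μ ≤ ((S ∩ Z).card : ℝ)) ≤ Real.exp (-(ε ^ 2 / 4 * μ)) := by
  have hμ0 : 0 ≤ μ := le_trans (mul_nonneg h0 (Nat.cast_nonneg _)) hμ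
  calc Pr E p (fun S => (1 + ε) * μ ≤ ((S ∩ Z).card : ℝ))
      ≤ Ex E p (fun S => Real.exp (-(ε / 2 * ((1 + ε) * μ))) * Real.exp (ε / 2) ^ (S ∩ Z).card) := by
        apply Pr_le_Ex h0 h1
        · intro S _; positivity
        · intro S _ hS
          rw [← Real.exp_nat_mul, ← Real.exp_add]
          apply Real.one_le_exp
          nlinarith
    _ = Real.exp (-(ε / 2 * ((1 + ε) * μ))) * (p * Real.exp (ε / 2) + (1 - p)) ^ Z.card := by
        rw [Ex_smul, Ex_pow_card hZ]
    _ ≤ Real.exp (-(ε / 2 * ((1 + ε) * μ))) * Real.exp (p * (ε / 2 + (ε / 2) ^ 2)) ^ Z.card := by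
        apply mul_le_mul_of_nonneg_left _ (Real.exp_pos _).le
        apply pow_le_pow_left₀
        · have := Real.exp_pos (ε / 2)
          have := mul_nonneg h0 this.le
          linarith
        · have h2 : Real.exp (ε / 2) ≤ 1 + ε / 2 + (ε / 2) ^ 2 := by
            have h3 := Real.abs_exp_sub_one_sub_id_le (x := ε / 2) (by
              rw [abs_of_nonneg (by linarith)]; linarith)
            have := (abs_le.mp h3).2
            linarith
          have h8 := Real.add_one_le_exp (p * (ε / 2 + (ε / 2) ^ 2))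
          nlinarith
    _ = Real.exp (p * Z.card * (ε / 2 + (ε / 2) ^ 2) - ε / 2 * ((1 + ε) * μ)) := by
        rw [← Real.exp_nat_mul, ← Real.exp_add]
        congr 1
        ring
    _ ≤ Real.exp (-(ε ^ 2 / 4 * μ)) := by
        apply Real.exp_le_exp.mpr
        have : p * Z.card * (ε / 2 + (ε / 2) ^ 2) ≤ μ * (ε / 2 + (ε / 2) ^ 2) :=
          mul_le_mul_of_nonneg_right hμ (by positivity)
        nlinarith

/-- upper tail, large deviations -/
theorem card_large {E Z : Finset α} (hZ : Z ⊆ E) {p : ℝ} (h0 : 0 ≤ p) (h1 : p ≤ 1) {μ : ℝ}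
    (hμ : p * Z.card ≤ μ) (R : ℕ) :
    Pr E p (fun S => R ≤ (S ∩ Z).card) ≤ Real.exp (3 * μ - R) := by
  calc Pr E p (fun S => R ≤ (S ∩ Z).card)
      ≤ Ex E p (fun S => Real.exp (-(R : ℝ)) * (4 : ℝ) ^ (S ∩ Z).card) := by
        apply Pr_le_Ex h0 h1
        · intro S _; positivity
        · intro S _ hS
          have h2 : Real.exp 1 ≤ 4 := by
            have := Real.exp_one_lt_d9
            linarith
          have h3 : Real.exp (R : ℝ) ≤ (4 : ℝ) ^ (S ∩ Z).card := by
            calc Real.exp (R : ℝ) = Real.exp 1 ^ R := by rw [← Real.exp_nat_mul]; simp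
              _ ≤ 4 ^ R := pow_le_pow_left₀ (Real.exp_pos _).le h2 _
              _ ≤ _ := pow_le_pow_right₀ (by norm_num) hS
          calc (1 : ℝ) = Real.exp (-(R : ℝ)) * Real.exp (R : ℝ) := by rw [← Real.exp_add]; simp
            _ ≤ _ := mul_le_mul_of_nonneg_left h3 (Real.exp_pos _).le
    _ = Real.exp (-(R : ℝ)) * (p * 4 + (1 - p)) ^ Z.card := by
        rw [Ex_smul, Ex_pow_card hZ]
    _ ≤ Real.exp (-(R : ℝ)) * Real.exp (3 * p) ^ Z.card := by
        apply mul_le_mul_of_nonneg_left _ (Real.exp_pos _).le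
        apply pow_le_pow_left₀ (by linarith)
        have h8 := Real.add_one_le_exp (3 * p)
        linarith
    _ = Real.exp (3 * (p * Z.card) - R) := by
        rw [← Real.exp_nat_mul, ← Real.exp_add]
        congr 1
        ring
    _ ≤ Real.exp (3 * μ - R) := by
        apply Real.exp_le_exp.mpr
        linarith

/-- lower tail for the number of block events, small deviations -/
theorem cnt_lower {ι : Type} [DecidableEq ι] {E : Finset α} {p : ℝ} (h0 : 0 ≤ p) (h1 : p ≤ 1)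
    (T : Finset ι) (R : ι → Finset α) (hR : ∀ v ∈ T, R v ⊆ E)
    (hd : (T : Set ι).PairwiseDisjoint R) (D : ι → Finset α → Prop) (g : ℝ)
    (hg : ∀ v ∈ T, g ≤ Pr (R v) p (D v)) {ε : ℝ} (hg0 : 0 ≤ g) (he : 0 ≤ ε) (he1 : ε ≤ 1) :
    Pr E p (fun S => ((cnt T R D S : ℕ) : ℝ) ≤ (1 - ε) * (g * T.card)) ≤
      Real.exp (-(ε ^ 2 / 2 * (g * T.card))) := by
  have hgT : 0 ≤ g * (T.card : ℝ) := mul_nonneg hg0 (Nat.cast_nonneg _)
  calc Pr E p (fun S => ((cnt T R D S : ℕ) : ℝ) ≤ (1 - ε) * (g * T.card))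
      ≤ Ex E p (fun S => Real.exp (ε * ((1 - ε) * (g * T.card))) * Real.exp (-ε) ^ cnt T R D S) := by
        apply Pr_le_Ex h0 h1
        · intro S _; positivity
        · intro S _ hS
          rw [← Real.exp_nat_mul, ← Real.exp_add]
          apply Real.one_le_exp
          nlinarith
    _ = Real.exp (ε * ((1 - ε) * (g * T.card))) *
          ∏ v ∈ T, (1 + (Real.exp (-ε) - 1) * Pr (R v) p (D v)) := by
        rw [Ex_smul, Ex_pow_cnt p T R hR hd]
    _ ≤ Real.exp (ε * ((1 - ε) * (g * T.card))) * ∏ _v ∈ T, Real.exp (-(g * (ε - ε ^ 2 / 2))) := by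
        apply mul_le_mul_of_nonneg_left _ (Real.exp_pos _).le
        have h2 : Real.exp (-ε) ≤ 1 - ε + ε ^ 2 / 2 := by
          have h3 := Real.quadratic_le_exp_of_nonneg he
          have h4 : Real.exp (-ε) * Real.exp ε = 1 := by rw [← Real.exp_add]; simp
          have h5 : 0 < Real.exp ε := Real.exp_pos _
          have h6 : 0 < 1 - ε + ε ^ 2 / 2 := by nlinarith
          have h7 : 1 ≤ (1 - ε + ε ^ 2 / 2) * Real.exp ε := by
            calc (1 : ℝ) ≤ (1 - ε + ε ^ 2 / 2) * (1 + ε + ε ^ 2 / 2) := by nlinarith [sq_nonneg (ε ^ 2)]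
              _ ≤ _ := mul_le_mul_of_nonneg_left h3 h6.le
          nlinarith
        apply prod_le_prod
        · intro v _
          have h9 := Pr_le_one (E := R v) h0 h1 (D v)
          have h10 := Pr_nonneg (E := R v) h0 h1 (D v)
          have := Real.exp_pos (-ε)
          nlinarith
        · intro v hv
          have h4 := hg v hv
          have h8 := Real.add_one_le_exp (-(g * (ε - ε ^ 2 / 2)))
          have h9 : 0 ≤ ε - ε ^ 2 / 2 := by nlinarith
          have h10 : (Real.exp (-ε) - 1) ≤ -(ε - ε ^ 2 / 2) := by linarith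
          have h11 := Pr_nonneg (E := R v) h0 h1 (D v)
          have h12 : (Real.exp (-ε) - 1) * Pr (R v) p (D v) ≤
              -(ε - ε ^ 2 / 2) * Pr (R v) p (D v) := mul_le_mul_of_nonneg_right h10 h11
          have h13 : (ε - ε ^ 2 / 2) * g ≤ (ε - ε ^ 2 / 2) * Pr (R v) p (D v) :=
            mul_le_mul_of_nonneg_left h4 h9
          linarith
    _ = Real.exp (-(ε ^ 2 / 2 * (g * T.card))) := by
        rw [prod_const, ← Real.exp_nat_mul, ← Real.exp_add]
        congr 1
        ring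

/-- probability that a set is missed -/
theorem Pr_disjoint {E Z : Finset α} (hZ : Z ⊆ E) (p : ℝ) :
    Pr E p (fun S => S ∩ Z = ∅) = (1 - p) ^ Z.card := by
  classical
  have h := Ex_pow_card hZ p 0
  rw [mul_zero, zero_add] at h
  rw [← h]
  unfold Pr
  apply Ex_congr
  intro S _
  by_cases hS : S ∩ Z = ∅
  · simp [hS]
  · rw [if_neg hS, zero_pow]
    rwa [Ne, card_eq_zero]

/-- probability that the set `B` is missed and `D` is hit -/
theorem Pr_hit_miss {D B : Finset α} (hd : Disjoint D B) {p : ℝ} (h0 : 0 ≤ p) (h1 : p ≤ 1) :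
    p * D.card * (1 - p * (D.card + B.card)) ≤
      Pr (D ∪ B) p (fun S => S ∩ D ≠ ∅ ∧ S ∩ B = ∅) := by
  classical
  have e1 : Pr (D ∪ B) p (fun S => S ∩ B = ∅) = (1 - p) ^ B.card :=
    Pr_disjoint subset_union_right p
  have e2 : Pr (D ∪ B) p (fun S => S ∩ (D ∪ B) = ∅) = (1 - p) ^ (D.card + B.card) := by
    rw [Pr_disjoint subset_rfl p, card_union_of_disjoint hd]
  have e3 : Pr (D ∪ B) p (fun S => S ∩ B = ∅) ≤
      Pr (D ∪ B) p (fun S => S ∩ D ≠ ∅ ∧ S ∩ B = ∅) + Pr (D ∪ B) p (fun S => S ∩ (D ∪ B) = ∅) := by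
    refine le_trans (Pr_mono h0 h1 ?_) (Pr_or_le h0 h1 _ _)
    intro S _ hS
    by_cases h : S ∩ D = ∅
    · right
      rw [inter_union_distrib_left, h, hS]
      simp
    · exact Or.inl ⟨h, hS⟩
  rw [e1, e2] at e3
  have hq : 0 ≤ 1 - p := by linarith
  have hq1 : 1 - p ≤ 1 := by linarith
  -- (1-p)^b (1 - (1-p)^d) ≥ p d (1 - p (d+b))
  have b1 : 1 - (B.card : ℝ) * p ≤ (1 - p) ^ B.card := by
    have := one_add_mul_le_pow (a := -p) (by linarith) B.card
    calc 1 - (B.card : ℝ) * p = 1 + (B.card : ℝ) * (-p) := by ring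
      _ ≤ (1 + -p) ^ B.card := this
      _ = (1 - p) ^ B.card := by ring_nf
  have b2 : (1 - p) ^ D.card * (1 + D.card * p) ≤ 1 := by
    have h5 : 1 + (D.card : ℝ) * p ≤ (1 + p) ^ D.card := one_add_mul_le_pow (by linarith) _
    calc (1 - p) ^ D.card * (1 + D.card * p) ≤ (1 - p) ^ D.card * (1 + p) ^ D.card :=
          mul_le_mul_of_nonneg_left h5 (pow_nonneg hq _)
      _ = (1 - p ^ 2) ^ D.card := by rw [← mul_pow]; ring_nf
      _ ≤ 1 := pow_le_one₀ (by nlinarith) (by nlinarith)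
  have hd0 : (0 : ℝ) ≤ D.card := Nat.cast_nonneg _
  have hb0 : (0 : ℝ) ≤ B.card := Nat.cast_nonneg _
  have b3 : p * D.card * (1 - p * D.card) ≤ 1 - (1 - p) ^ D.card := by
    have hx : 0 ≤ (1 - p) ^ D.card := pow_nonneg hq _
    -- x (1+y) ≤ 1, want y (1-y) ≤ 1 - x
    have hy : 0 ≤ p * (D.card : ℝ) := mul_nonneg h0 hd0
    nlinarith [mul_nonneg hx hy, mul_nonneg hy hy, mul_nonneg (mul_nonneg hy hy) hy,
      sq_nonneg (p * (D.card : ℝ)), mul_nonneg hx (mul_nonneg hy hy)]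
  have key : p * D.card * (1 - p * (D.card + B.card)) ≤ (1 - p) ^ B.card * (1 - (1 - p) ^ D.card) := by
    have hx1 : (1 - p) ^ D.card ≤ 1 := pow_le_one₀ hq hq1
    have hxb : 0 ≤ (1 - p) ^ B.card := pow_nonneg hq _
    by_cases hneg : 1 - p * ((D.card : ℝ) + B.card) < 0
    · have h6 : p * D.card * (1 - p * (D.card + B.card)) ≤ 0 :=
        mul_nonpos_of_nonneg_of_nonpos (mul_nonneg h0 hd0) hneg.le
      have h7 : 0 ≤ (1 - p) ^ B.card * (1 - (1 - p) ^ D.card) := mul_nonneg hxb (by linarith)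
      linarith
    · push Not at hneg
      have hpb : 0 ≤ p * (B.card : ℝ) := mul_nonneg h0 hb0
      have hpd : 0 ≤ p * (D.card : ℝ) := mul_nonneg h0 hd0
      have h8 : 0 ≤ 1 - (B.card : ℝ) * p := by nlinarith
      have h9 : 0 ≤ 1 - p * (D.card : ℝ) := by nlinarith
      calc p * D.card * (1 - p * (D.card + B.card))
          ≤ (1 - (B.card : ℝ) * p) * (p * D.card * (1 - p * D.card)) := by
            nlinarith [mul_nonneg (mul_nonneg hpd hpd) hpb]
        _ ≤ (1 - p) ^ B.card * (1 - (1 - p) ^ D.card) :=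
            mul_le_mul b1 b3 (mul_nonneg hpd h9) hxb
  have e4 : (1 - p) ^ B.card * (1 - (1 - p) ^ D.card) = (1 - p) ^ B.card - (1 - p) ^ (D.card + B.card) := by
    rw [pow_add]; ring
  rw [e4] at key
  linarith

end Pool.Agent.W963.LogDepth
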