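import Mathlib

set_option autoImplicit false

/-! Definability of graph predicates by formulas of bounded quantifier rank: closure properties. -/

namespace Pool.Agent.W963.LogDepth

open FirstOrder

/-- the closure conditions of the frozen statement -/
def Closed (Q : (m : ℕ) → FirstOrder.Language.BoundedFormula FirstOrder.Language.graph Empty m → ℕ → Prop) :
    Prop :=
  ((∀ (m k' : ℕ), Q m FirstOrder.Language.BoundedFormula.falsum k') ∧
    (∀ (m k' : ℕ) (t₁ t₂ : FirstOrder.Language.Term FirstOrder.Language.graph (Empty ⊕ Fin m)),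
      Q m (FirstOrder.Language.BoundedFormula.equal t₁ t₂) k') ∧
    (∀ (m k' l : ℕ) (R : FirstOrder.Language.graph.Relations l)
      (ts : Fin l → FirstOrder.Language.Term FirstOrder.Language.graph (Empty ⊕ Fin m)),
      Q m (FirstOrder.Language.BoundedFormula.rel R ts) k') ∧
    (∀ (m k' : ℕ) (ψ χ : FirstOrder.Language.BoundedFormula FirstOrder.Language.graph Empty m),
      Q m ψ k' → Q m χ k' → Q m (FirstOrder.Language.BoundedFormula.imp ψ χ) k') ∧
    (∀ (m k' : ℕ) (ψ : FirstOrder.Language.BoundedFormula FirstOrder.Language.graph Empty (m + 1)),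
      Q (m + 1) ψ k' → Q m (FirstOrder.Language.BoundedFormula.all ψ) (k' + 1)))

/-- quantifier rank at most `k` -/
def QR (m : ℕ) (φ : FirstOrder.Language.BoundedFormula FirstOrder.Language.graph Empty m) (k : ℕ) : Prop :=
  ∀ Q : (m : ℕ) → FirstOrder.Language.BoundedFormula FirstOrder.Language.graph Empty m → ℕ → Prop,
    Closed Q → Q m φ k

theorem QR.falsum (m k : ℕ) : QR m FirstOrder.Language.BoundedFormula.falsum k :=
  fun _ hQ => hQ.1 m k

theorem QR.equal {m : ℕ} (k : ℕ)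
    (t₁ t₂ : FirstOrder.Language.Term FirstOrder.Language.graph (Empty ⊕ Fin m)) :
    QR m (FirstOrder.Language.BoundedFormula.equal t₁ t₂) k :=
  fun _ hQ => hQ.2.1 m k t₁ t₂

theorem QR.rel {m : ℕ} (k : ℕ) {l : ℕ} (R : FirstOrder.Language.graph.Relations l)
    (ts : Fin l → FirstOrder.Language.Term FirstOrder.Language.graph (Empty ⊕ Fin m)) :
    QR m (FirstOrder.Language.BoundedFormula.rel R ts) k :=
  fun _ hQ => hQ.2.2.1 m k l R ts

theorem QR.imp {m k : ℕ} {ψ χ : FirstOrder.Language.BoundedFormula FirstOrder.Language.graph Empty m}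
    (h1 : QR m ψ k) (h2 : QR m χ k) : QR m (FirstOrder.Language.BoundedFormula.imp ψ χ) k :=
  fun Q hQ => hQ.2.2.2.1 m k ψ χ (h1 Q hQ) (h2 Q hQ)

theorem QR.all {m k : ℕ} {ψ : FirstOrder.Language.BoundedFormula FirstOrder.Language.graph Empty (m + 1)}
    (h1 : QR (m + 1) ψ k) : QR m (FirstOrder.Language.BoundedFormula.all ψ) (k + 1) :=
  fun Q hQ => hQ.2.2.2.2 m k ψ (h1 Q hQ)

theorem QR.succ {m k : ℕ} {φ : FirstOrder.Language.BoundedFormula FirstOrder.Language.graph Empty m}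
    (h : QR m φ k) : QR m φ (k + 1) := by
  refine h (fun m φ k => QR m φ (k + 1)) ⟨?_, ?_, ?_, ?_, ?_⟩
  · intro m k; exact QR.falsum _ _
  · intro m k t₁ t₂; exact QR.equal _ _ _
  · intro m k l R ts; exact QR.rel _ _ _
  · intro m k ψ χ h1 h2; exact QR.imp h1 h2
  · intro m k ψ h1; exact QR.all h1

theorem QR.mono {m k k' : ℕ} {φ : FirstOrder.Language.BoundedFormula FirstOrder.Language.graph Empty m}
    (h : QR m φ k) (hk : k ≤ k') : QR m φ k' := by
  induction hk with
  | refl => exact h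
  | step _ ih => exact ih.succ

/-- `P` (a property of a graph and `m` of its vertices) is definable by a formula of rank at most `r` -/
def Dfn (m r : ℕ) (P : ∀ (N : ℕ), SimpleGraph (Fin N) → (Fin m → Fin N) → Prop) : Prop :=
  ∃ φ : FirstOrder.Language.BoundedFormula FirstOrder.Language.graph Empty m, QR m φ r ∧
    ∀ (N : ℕ) (H : SimpleGraph (Fin N)) (a : Fin m → Fin N),
      (@FirstOrder.Language.BoundedFormula.Realize FirstOrder.Language.graph (Fin N) H.structure
        Empty m φ default a ↔ P N H a)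

theorem Dfn.congr {m r : ℕ} {P P' : ∀ (N : ℕ), SimpleGraph (Fin N) → (Fin m → Fin N) → Prop}
    (h : Dfn m r P) (hP : ∀ N H a, P N H a ↔ P' N H a) : Dfn m r P' := by
  obtain ⟨φ, h1, h2⟩ := h
  exact ⟨φ, h1, fun N H a => (h2 N H a).trans (hP N H a)⟩

theorem Dfn.mono {m r r' : ℕ} {P : ∀ (N : ℕ), SimpleGraph (Fin N) → (Fin m → Fin N) → Prop}
    (h : Dfn m r P) (hr : r ≤ r') : Dfn m r' P := by
  obtain ⟨φ, h1, h2⟩ := h
  exact ⟨φ, h1.mono hr, h2⟩

theorem Dfn.false (m r : ℕ) : Dfn m r (fun _ _ _ => False) :=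
  ⟨FirstOrder.Language.BoundedFormula.falsum, QR.falsum _ _, fun _ _ _ => Iff.rfl⟩

theorem Dfn.imp {m r : ℕ} {P P' : ∀ (N : ℕ), SimpleGraph (Fin N) → (Fin m → Fin N) → Prop}
    (h : Dfn m r P) (h' : Dfn m r P') : Dfn m r (fun N H a => P N H a → P' N H a) := by
  obtain ⟨φ, h1, h2⟩ := h
  obtain ⟨φ', h1', h2'⟩ := h'
  refine ⟨φ.imp φ', h1.imp h1', fun N H a => ?_⟩
  letI := H.structure
  rw [FirstOrder.Language.BoundedFormula.realize_imp, h2, h2']

theorem Dfn.not {m r : ℕ} {P : ∀ (N : ℕ), SimpleGraph (Fin N) → (Fin m → Fin N) → Prop}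
    (h : Dfn m r P) : Dfn m r (fun N H a => ¬ P N H a) :=
  (h.imp (Dfn.false m r)).congr (fun _ _ _ => Iff.rfl)

theorem Dfn.true (m r : ℕ) : Dfn m r (fun _ _ _ => True) :=
  (Dfn.false m r).not.congr (fun _ _ _ => by simp)

theorem Dfn.or {m r : ℕ} {P P' : ∀ (N : ℕ), SimpleGraph (Fin N) → (Fin m → Fin N) → Prop}
    (h : Dfn m r P) (h' : Dfn m r P') : Dfn m r (fun N H a => P N H a ∨ P' N H a) :=
  (h.not.imp h').congr (fun _ _ _ => by tauto)

theorem Dfn.and {m r : ℕ} {P P' : ∀ (N : ℕ), SimpleGraph (Fin N) → (Fin m → Fin N) → Prop}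
    (h : Dfn m r P) (h' : Dfn m r P') : Dfn m r (fun N H a => P N H a ∧ P' N H a) :=
  (h.imp h'.not).not.congr (fun _ _ _ => by tauto)

theorem Dfn.iff {m r : ℕ} {P P' : ∀ (N : ℕ), SimpleGraph (Fin N) → (Fin m → Fin N) → Prop}
    (h : Dfn m r P) (h' : Dfn m r P') : Dfn m r (fun N H a => P N H a ↔ P' N H a) :=
  ((h.imp h').and (h'.imp h)).congr (fun _ _ _ => by tauto)

theorem Dfn.const (m r : ℕ) (c : Prop) : Dfn m r (fun _ _ _ => c) := by
  by_cases h : c
  · exact (Dfn.true m r).congr (fun _ _ _ => by simp [h])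
  · exact (Dfn.false m r).congr (fun _ _ _ => by simp [h])

theorem Dfn.forall_fin {m r : ℕ} {ι : Type} [Finite ι]
    {P : ι → ∀ (N : ℕ), SimpleGraph (Fin N) → (Fin m → Fin N) → Prop}
    (h : ∀ i, Dfn m r (P i)) : Dfn m r (fun N H a => ∀ i, P i N H a) := by
  classical
  haveI := Fintype.ofFinite ι
  have key : ∀ s : Finset ι, Dfn m r (fun N H a => ∀ i ∈ s, P i N H a) := by
    intro s
    induction s using Finset.induction_on with
    | empty => exact (Dfn.true m r).congr (fun _ _ _ => by simp)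
    | insert i s _ ih => exact ((h i).and ih).congr (fun _ _ _ => by simp)
  exact (key Finset.univ).congr (fun _ _ _ => by simp)

theorem Dfn.exists_fin {m r : ℕ} {ι : Type} [Finite ι]
    {P : ι → ∀ (N : ℕ), SimpleGraph (Fin N) → (Fin m → Fin N) → Prop}
    (h : ∀ i, Dfn m r (P i)) : Dfn m r (fun N H a => ∃ i, P i N H a) :=
  (Dfn.forall_fin (fun i => (h i).not)).not.congr (fun _ _ _ => by simp)

theorem Dfn.all {m r : ℕ} {P : ∀ (N : ℕ), SimpleGraph (Fin N) → (Fin (m + 1) → Fin N) → Prop}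
    (h : Dfn (m + 1) r P) :
    Dfn m (r + 1) (fun N H a => ∀ v : Fin N, P N H (Fin.snoc (α := fun _ => Fin N) a v)) := by
  obtain ⟨φ, h1, h2⟩ := h
  refine ⟨φ.all, h1.all, fun N H a => ?_⟩
  letI := H.structure
  rw [FirstOrder.Language.BoundedFormula.realize_all]
  exact forall_congr' (fun v => h2 N H _)

theorem Dfn.ex {m r : ℕ} {P : ∀ (N : ℕ), SimpleGraph (Fin N) → (Fin (m + 1) → Fin N) → Prop}
    (h : Dfn (m + 1) r P) :
    Dfn m (r + 1) (fun N H a => ∃ v : Fin N, P N H (Fin.snoc (α := fun _ => Fin N) a v)) :=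
  h.not.all.not.congr (fun _ _ _ => by simp)

theorem Dfn.eq {m : ℕ} (r : ℕ) (i j : Fin m) : Dfn m r (fun _ _ a => a i = a j) := by
  refine ⟨FirstOrder.Language.BoundedFormula.equal (Language.Term.var (Sum.inr i))
    (Language.Term.var (Sum.inr j)), QR.equal _ _ _, fun N H a => ?_⟩
  letI := H.structure
  exact Iff.rfl

theorem Dfn.adj {m : ℕ} (r : ℕ) (i j : Fin m) : Dfn m r (fun _ H a => H.Adj (a i) (a j)) := by
  refine ⟨FirstOrder.Language.BoundedFormula.rel FirstOrder.Language.adj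
    ![Language.Term.var (Sum.inr i), Language.Term.var (Sum.inr j)], QR.rel _ _ _, fun N H a => ?_⟩
  letI := H.structure
  exact Iff.rfl

/-- several existential quantifiers -/
theorem Dfn.ex_many {r : ℕ} : ∀ (m : ℕ) {P : ∀ (N : ℕ), SimpleGraph (Fin N) → (Fin m → Fin N) → Prop},
    Dfn m r P → Dfn 0 (r + m) (fun N H _ => ∃ a : Fin m → Fin N, P N H a) := by
  intro m
  induction m generalizing r with
  | zero =>
    intro P h
    refine h.congr (fun N H a => ?_)
    constructor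
    · intro h1; exact ⟨a, h1⟩
    · rintro ⟨a', h1⟩
      rwa [Subsingleton.elim a a']
  | succ m ih =>
    intro P h
    have h1 := ih (r := r + 1) h.ex
    have e : r + 1 + m = r + (m + 1) := by ring
    rw [e] at h1
    refine h1.congr (fun N H _ => ?_)
    constructor
    · rintro ⟨a, v, h2⟩
      exact ⟨_, h2⟩
    · rintro ⟨a, h2⟩
      refine ⟨Fin.init a, a (Fin.last m), ?_⟩
      rwa [Fin.snoc_init_self]

/-- what we need for the frozen statement: `G` is defined by a sentence of rank at most `k` -/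
def Depth (n : ℕ) (G : SimpleGraph (Fin n)) (k : ℕ) : Prop :=
  ∃ φ : FirstOrder.Language.Sentence FirstOrder.Language.graph, QR 0 φ k ∧
    ∀ (m : ℕ) (H : SimpleGraph (Fin m)),
      (@FirstOrder.Language.Sentence.Realize FirstOrder.Language.graph (Fin m) H.structure φ
        ↔ Nonempty (SimpleGraph.Iso G H))

theorem depth_of_dfn {n : ℕ} {G : SimpleGraph (Fin n)} {k : ℕ}
    {P : ∀ (N : ℕ), SimpleGraph (Fin N) → (Fin 0 → Fin N) → Prop} (h : Dfn 0 k P)
    (hP : ∀ (N : ℕ) (H : SimpleGraph (Fin N)) (a : Fin 0 → Fin N), P N H a ↔ Nonempty (SimpleGraph.Iso G H)) :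
    Depth n G k := by
  obtain ⟨φ, h1, h2⟩ := h
  refine ⟨φ, h1, fun m H => ?_⟩
  letI := H.structure
  rw [← hP m H default, ← h2 m H default]
  exact Iff.rfl

end Pool.Agent.W963.LogDepth
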