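import Pool.Agent.W963.LogDepth.Dfn

set_option autoImplicit false

/-! Invariance, counting quantifiers, and the defining sentence. -/

namespace Pool.Agent.W963.LogDepth

open FirstOrder Finset Classical

/-- a definable predicate is invariant under isomorphisms -/
theorem Dfn.invariant {m r : ℕ} {P : ∀ (N : ℕ), SimpleGraph (Fin N) → (Fin m → Fin N) → Prop}
    (h : Dfn m r P) {N N' : ℕ} {H : SimpleGraph (Fin N)} {H' : SimpleGraph (Fin N')}
    (f : SimpleGraph.Iso H H') (a : Fin m → Fin N) : P N' H' (fun i => f (a i)) ↔ P N H a := by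
  obtain ⟨φ, _, h2⟩ := h
  rw [← h2, ← h2]
  let i1 := H.structure
  let i2 := H'.structure
  let g : @Language.Equiv Language.graph (Fin N) (Fin N') H.structure H'.structure :=
    { toEquiv := f.toEquiv
      map_fun' := fun {n} F x => isEmptyElim F
      map_rel' := by
        intro n R x
        cases R
        exact f.map_rel_iff }
  have key := FirstOrder.Language.StrongHomClass.realize_boundedFormula (L := Language.graph) g φ
    (v := (default : Empty → Fin N)) (xs := a)
  rw [← key]
  have e1 : (g ∘ (default : Empty → Fin N)) = (default : Empty → Fin N') := by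
    funext x; exact x.elim
  rw [e1]
  exact Iff.rfl

/-- a property of a vertex `v` with parameters `c`, definable uniformly with rank at most `r` -/
def UDfn (m r : ℕ) (Ψ : ∀ (N : ℕ), SimpleGraph (Fin N) → (Fin m → Fin N) → Fin N → Prop) : Prop :=
  ∀ (M : ℕ) (h : m ≤ M) (j : Fin M),
    Dfn M r (fun N H a => Ψ N H (fun k => a (Fin.castLE h k)) (a j))

theorem snoc_castLE {N m M : ℕ} (h : m ≤ M) (h' : m ≤ M + 1) (a : Fin M → Fin N) (v : Fin N) :
    (fun k : Fin m => (Fin.snoc (α := fun _ => Fin N) a v) (Fin.castLE h' k)) =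
      fun k => a (Fin.castLE h k) := by
  funext k
  have : Fin.castLE h' k = Fin.castSucc (Fin.castLE h k) := by
    ext; simp
  rw [this, Fin.snoc_castSucc]

/-- counting quantifier -/
theorem Dfn.count {m r : ℕ} {P : ∀ (N : ℕ), SimpleGraph (Fin N) → (Fin m → Fin N) → Fin N → Prop}
    (hP : UDfn m r P) : ∀ (k : ℕ) (M : ℕ) (h : m ≤ M) (J : Finset (Fin M)),
    Dfn M (r + k) (fun N H a => k ≤ ((univ : Finset (Fin N)).filter
      (fun w => P N H (fun i => a (Fin.castLE h i)) w ∧ ∀ j ∈ J, w ≠ a j)).card) := by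
  intro k
  induction k with
  | zero =>
    intro M h J
    exact (Dfn.true M _).congr (fun _ _ _ => by simp)
  | succ k ih =>
    intro M h J
    have h' : m ≤ M + 1 := h.trans (Nat.le_succ M)
    have h1 : Dfn (M + 1) (r + k) (fun N H a =>
        P N H (fun i => a (Fin.castLE h' i)) (a (Fin.last M)) ∧
        (∀ j : {j // j ∈ J}, ¬ (a (Fin.last M) = a (Fin.castSucc j.1))) ∧
        k ≤ ((univ : Finset (Fin N)).filter
          (fun w => P N H (fun i => a (Fin.castLE h' i)) w ∧
            ∀ j ∈ insert (Fin.last M) (J.image Fin.castSucc), w ≠ a j)).card) := by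
      refine ((hP (M + 1) h' (Fin.last M)).mono (Nat.le_add_right r k)).and (Dfn.and ?_ ?_)
      · exact Dfn.forall_fin (fun j => (Dfn.eq _ _ _).not)
      · exact ih (M + 1) h' _
    have h2 := h1.ex
    have e : r + k + 1 = r + (k + 1) := by ring
    rw [e] at h2
    refine h2.congr (fun N H a => ?_)
    simp only [snoc_castLE h h', Fin.snoc_last, Fin.snoc_castSucc]
    constructor
    · rintro ⟨v, hv1, hv2, hv3⟩
      have hsub : insert v ((univ : Finset (Fin N)).filter
          (fun w => P N H (fun i => a (Fin.castLE h i)) w ∧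
            ∀ j ∈ insert (Fin.last M) (J.image Fin.castSucc),
              w ≠ (Fin.snoc (α := fun _ => Fin N) a v) j)) ⊆
          (univ : Finset (Fin N)).filter
            (fun w => P N H (fun i => a (Fin.castLE h i)) w ∧ ∀ j ∈ J, w ≠ a j) := by
        intro w hw
        rw [mem_insert] at hw
        rw [mem_filter]
        refine ⟨mem_univ _, ?_⟩
        rcases hw with hw | hw
        · subst hw
          exact ⟨hv1, fun j hj => hv2 ⟨j, hj⟩⟩
        · rw [mem_filter] at hw
          refine ⟨hw.2.1, fun j hj => ?_⟩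
          have := hw.2.2 (Fin.castSucc j) (mem_insert_of_mem (mem_image_of_mem _ hj))
          rwa [Fin.snoc_castSucc] at this
      have hnot : v ∉ ((univ : Finset (Fin N)).filter
          (fun w => P N H (fun i => a (Fin.castLE h i)) w ∧
            ∀ j ∈ insert (Fin.last M) (J.image Fin.castSucc),
              w ≠ (Fin.snoc (α := fun _ => Fin N) a v) j)) := by
        intro hmem
        rw [mem_filter] at hmem
        have := hmem.2.2 (Fin.last M) (mem_insert_self _ _)
        rw [Fin.snoc_last] at this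
        exact this rfl
      have hcard := card_le_card hsub
      rw [card_insert_of_notMem hnot] at hcard
      omega
    · intro hk
      have hpos : 0 < ((univ : Finset (Fin N)).filter
            (fun w => P N H (fun i => a (Fin.castLE h i)) w ∧ ∀ j ∈ J, w ≠ a j)).card := by omega
      obtain ⟨v, hv⟩ := card_pos.mp hpos
      have hv' := hv
      rw [mem_filter] at hv'
      refine ⟨v, hv'.2.1, fun j => hv'.2.2 j.1 j.2, ?_⟩
      have hsub : ((univ : Finset (Fin N)).filter
            (fun w => P N H (fun i => a (Fin.castLE h i)) w ∧ ∀ j ∈ J, w ≠ a j)).erase v ⊆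
          ((univ : Finset (Fin N)).filter
          (fun w => P N H (fun i => a (Fin.castLE h i)) w ∧
            ∀ j ∈ insert (Fin.last M) (J.image Fin.castSucc),
              w ≠ (Fin.snoc (α := fun _ => Fin N) a v) j)) := by
        intro w hw
        rw [mem_erase, mem_filter] at hw
        rw [mem_filter]
        refine ⟨mem_univ _, hw.2.2.1, fun j hj => ?_⟩
        rw [mem_insert, mem_image] at hj
        rcases hj with hj | ⟨j', hj', rfl⟩
        · subst hj
          rw [Fin.snoc_last]
          exact hw.1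
        · rw [Fin.snoc_castSucc]
          exact hw.2.2.2 j' hj'
      have hcard := card_le_card hsub
      rw [card_erase_of_mem hv] at hcard
      omega

theorem UDfn.count {m r : ℕ}
    {P : ∀ (N : ℕ), SimpleGraph (Fin N) → (Fin (m + 1) → Fin N) → Fin N → Prop}
    (hP : ∀ (M : ℕ) (h : m ≤ M) (j l : Fin M), Dfn M r (fun N H a =>
      P N H (Fin.snoc (α := fun _ => Fin N) (fun k => a (Fin.castLE h k)) (a j)) (a l))) (k : ℕ) :
    UDfn m (r + k) (fun N H c v => k ≤ ((univ : Finset (Fin N)).filter
      (fun w => P N H (Fin.snoc (α := fun _ => Fin N) c v) w)).card) := by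
  intro M h j
  have h1 : UDfn M r (fun N H c w =>
      P N H (Fin.snoc (α := fun _ => Fin N) (fun k => c (Fin.castLE h k)) (c j)) w) := by
    intro M' h' l
    have := hP M' (h.trans h') (Fin.castLE h' j) l
    exact this
  have h2 := Dfn.count h1 k M le_rfl ∅
  refine h2.congr (fun N H a => ?_)
  simp

/-- `y` is separated from `y'` by a uniformly definable predicate of rank at most `r` -/
def Sep {n m : ℕ} (G : SimpleGraph (Fin n)) (c : Fin m → Fin n) (r : ℕ) (y y' : Fin n) : Prop :=
  ∃ Ψ : ∀ (N : ℕ), SimpleGraph (Fin N) → (Fin m → Fin N) → Fin N → Prop,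
    UDfn m r Ψ ∧ Ψ n G c y ∧ ¬ Ψ n G c y'

theorem Sep.symm {n m : ℕ} {G : SimpleGraph (Fin n)} {c : Fin m → Fin n} {r : ℕ} {y y' : Fin n}
    (h : Sep G c r y y') : Sep G c r y' y := by
  obtain ⟨Ψ, h1, h2, h3⟩ := h
  exact ⟨fun N H c v => ¬ Ψ N H c v, fun M h j => (h1 M h j).not, h3, fun h4 => h4 h2⟩

theorem sep_pinned {n m : ℕ} (G : SimpleGraph (Fin n)) (c : Fin m → Fin n) (r : ℕ) (i : Fin m)
    {y' : Fin n} (h : c i ≠ y') : Sep G c r (c i) y' := by
  refine ⟨fun N H c v => v = c i, fun M h j => Dfn.eq _ _ _, rfl, fun h4 => h h4.symm⟩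

theorem depth_of_sep {n m r : ℕ} (G : SimpleGraph (Fin n)) (c : Fin m → Fin n)
    (hsep : ∀ y y' : Fin n, y ≠ y' → Sep G c r y y') : Depth n G (r + 2 + m) := by
  choose! Ψ hΨ1 hΨ2 hΨ3 using hsep
  -- the type of `y`
  let θ : Fin n → ∀ (N : ℕ), SimpleGraph (Fin N) → (Fin m → Fin N) → Fin N → Prop :=
    fun y N H a v => ∀ y' : {y' : Fin n // y ≠ y'}, Ψ y y'.1 N H a v
  have hθ : ∀ y, UDfn m r (θ y) := by
    intro y M h j
    exact Dfn.forall_fin (fun y' => hΨ1 y y'.1 y'.2 M h j)
  have hθG : ∀ y v, θ y n G c v ↔ v = y := by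
    intro y v
    constructor
    · intro h
      by_contra hne
      exact hΨ3 y v (fun e => hne e.symm) (h ⟨v, fun e => hne e.symm⟩)
    · rintro rfl y'
      exact hΨ2 v y'.1 y'.2
  let P : ∀ (N : ℕ), SimpleGraph (Fin N) → (Fin m → Fin N) → Prop := fun N H a =>
    (∀ v, ∃ y : Fin n, θ y N H a v) ∧ (∀ y : Fin n, ∃ v, θ y N H a v) ∧
    (∀ v w, ∀ y y' : Fin n, θ y N H a v → θ y' N H a w →
      ((v = w ↔ y = y') ∧ (H.Adj v w ↔ G.Adj y y')))
  have hP : Dfn m (r + 2) P := by
    have hle : m ≤ m + 1 := Nat.le_succ m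
    have hle2 : m ≤ m + 2 := by omega
    refine Dfn.and ?_ (Dfn.and ?_ ?_)
    · have h1 : Dfn (m + 1) r (fun N H a => ∃ y : Fin n,
          θ y N H (fun k => a (Fin.castLE hle k)) (a (Fin.last m))) :=
        Dfn.exists_fin (fun y => hθ y (m + 1) hle (Fin.last m))
      refine (h1.all.mono (by omega : r + 1 ≤ r + 2)).congr (fun N H a => ?_)
      simp only [snoc_castLE le_rfl hle, Fin.snoc_last]
      rfl
    · refine Dfn.forall_fin (fun y => ?_)
      have h1 : Dfn (m + 1) r (fun N H a =>
          θ y N H (fun k => a (Fin.castLE hle k)) (a (Fin.last m))) :=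
        hθ y (m + 1) hle (Fin.last m)
      refine (h1.ex.mono (by omega : r + 1 ≤ r + 2)).congr (fun N H a => ?_)
      simp only [snoc_castLE le_rfl hle, Fin.snoc_last]
      rfl
    · have h1 : Dfn (m + 2) r (fun N H a => ∀ y y' : Fin n,
          θ y N H (fun k => a (Fin.castLE hle2 k)) (a (Fin.castSucc (Fin.last m))) →
          θ y' N H (fun k => a (Fin.castLE hle2 k)) (a (Fin.last (m + 1))) →
          ((a (Fin.castSucc (Fin.last m)) = a (Fin.last (m + 1)) ↔ y = y') ∧
          (H.Adj (a (Fin.castSucc (Fin.last m))) (a (Fin.last (m + 1))) ↔ G.Adj y y'))) := by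
        refine Dfn.forall_fin (fun y => Dfn.forall_fin (fun y' => ?_))
        refine (hθ y (m + 2) hle2 _).imp ((hθ y' (m + 2) hle2 _).imp (Dfn.and ?_ ?_))
        · exact (Dfn.eq _ _ _).iff (Dfn.const _ _ _)
        · exact (Dfn.adj _ _ _).iff (Dfn.const _ _ _)
      refine h1.all.all.congr (fun N H a => ?_)
      have e : ∀ (v w : Fin N), (fun k : Fin m => (Fin.snoc (α := fun _ => Fin N)
          (Fin.snoc (α := fun _ => Fin N) a v) w) (Fin.castLE hle2 k)) = a := by
        intro v w
        rw [snoc_castLE hle hle2, snoc_castLE le_rfl hle]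
        rfl
      simp only [Fin.snoc_last, Fin.snoc_castSucc, e]
  refine depth_of_dfn (hP.ex_many m) (fun N H _ => ?_)
  constructor
  · rintro ⟨a, h1, h2, h3⟩
    choose f hf using h1
    choose g hg using h2
    have hfg : ∀ y, f (g y) = y := by
      intro y
      exact ((h3 (g y) (g y) (f (g y)) y (hf (g y)) (hg y)).1).mp rfl
    have hgf : ∀ v, g (f v) = v := by
      intro v
      exact ((h3 (g (f v)) v (f v) (f v) (hg (f v)) (hf v)).1).mpr rfl
    refine ⟨⟨⟨g, f, hfg, hgf⟩, ?_⟩⟩
    intro y y'
    exact (h3 (g y) (g y') y y' (hg y) (hg y')).2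
  · rintro ⟨f⟩
    refine ⟨fun i => f (c i), ?_⟩
    have hinv : ∀ y v, θ y N H (fun i => f (c i)) (f v) ↔ θ y n G c v := by
      intro y v
      have h1 := hθ y (m + 1) (Nat.le_succ m) (Fin.last m)
      have h2 := h1.invariant f (Fin.snoc (α := fun _ => Fin n) c v)
      have e1 : (fun k : Fin m => f ((Fin.snoc (α := fun _ => Fin n) c v)
          (Fin.castLE (Nat.le_succ m) k))) = fun i => f (c i) := by
        funext k
        have := congrFun (snoc_castLE (N := n) le_rfl (Nat.le_succ m) c v) k
        exact congrArg f this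
      have e2 : (fun k : Fin m => ((Fin.snoc (α := fun _ => Fin n) c v)
          (Fin.castLE (Nat.le_succ m) k))) = c := by
        funext k
        exact congrFun (snoc_castLE (N := n) le_rfl (Nat.le_succ m) c v) k
      simp only [e1, e2, Fin.snoc_last] at h2
      exact h2
    have hinv' : ∀ y u, θ y N H (fun i => f (c i)) u ↔ u = f y := by
      intro y u
      obtain ⟨v, rfl⟩ := f.surjective u
      rw [hinv, hθG]
      exact f.injective.eq_iff.symm
    refine ⟨fun v => ?_, fun y => ⟨f y, (hinv' y _).mpr rfl⟩, ?_⟩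
    · obtain ⟨y, rfl⟩ := f.surjective v
      exact ⟨y, (hinv' y _).mpr rfl⟩
    · intro v w y y' h1 h2
      rw [hinv'] at h1 h2
      subst h1 h2
      exact ⟨f.injective.eq_iff, f.map_rel_iff⟩

end Pool.Agent.W963.LogDepth
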