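import Pool.Agent.W963.LogDepth.Chern
import Pool.Agent.W166.Gnp.Transfer

set_option autoImplicit false
set_option linter.unusedSectionVars false

/-! Uniform expansion and maximum degree. -/

namespace Pool.Agent.W963.LogDepth

open Finset Pool.Agent.W166.Gnp Classical

variable {n : ℕ}

/-- vertices of `W` adjacent to `D` and not to `B` -/
noncomputable def hitmiss (S : Finset (Sym2 (Fin n))) (W D B : Finset (Fin n)) : Finset (Fin n) :=
  W.filter (fun w => (∃ u ∈ D, s(w, u) ∈ S) ∧ ∀ u ∈ B, s(w, u) ∉ S)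

theorem row_union (w : Fin n) (D B : Finset (Fin n)) : row w (D ∪ B) = row w D ∪ row w B :=
  image_union _ _

theorem inter_row_ne {S : Finset (Sym2 (Fin n))} {w : Fin n} {D : Finset (Fin n)} :
    S ∩ row w D ≠ ∅ ↔ ∃ u ∈ D, s(w, u) ∈ S := by
  rw [← nonempty_iff_ne_empty]
  constructor
  · rintro ⟨e, he⟩
    rw [mem_inter, mem_row] at he
    obtain ⟨h1, a, ha, rfl⟩ := he
    exact ⟨a, ha, h1⟩
  · rintro ⟨u, hu, h⟩
    exact ⟨_, mem_inter.mpr ⟨h, mem_row.mpr ⟨u, hu, rfl⟩⟩⟩

theorem inter_row_eq {S : Finset (Sym2 (Fin n))} {w : Fin n} {D : Finset (Fin n)} :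
    S ∩ row w D = ∅ ↔ ∀ u ∈ D, s(w, u) ∉ S := by
  rw [← not_iff_not, ← ne_eq, inter_row_ne]
  push Not
  rfl

theorem row_sub_allE {w : Fin n} {D : Finset (Fin n)} (h : w ∉ D) : row w D ⊆ allE n := by
  intro e he
  rw [mem_row] at he
  obtain ⟨a, ha, rfl⟩ := he
  rw [mem_allE]
  rintro rfl
  exact h ha

theorem hitmiss_bound (V D B : Finset (Fin n)) (hdis : Disjoint D B) {p ε : ℝ} (h0 : 0 ≤ p)
    (h1 : p ≤ 1) (he : 0 ≤ ε) (he1 : ε ≤ 1) (hp : p * (D.card + B.card) ≤ 1 / 2) :
    Pr (allE n) p (fun S => ((hitmiss S (V \ (D ∪ B)) D B).card : ℝ) ≤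
      (1 - ε) * (p * D.card * (1 - p * (D.card + B.card)) * (V \ (D ∪ B)).card)) ≤
    Real.exp (-(ε ^ 2 / 2 * (p * D.card * (1 - p * (D.card + B.card)) * (V \ (D ∪ B)).card))) := by
  have hg0 : 0 ≤ p * D.card * (1 - p * (D.card + B.card)) := by
    apply mul_nonneg (mul_nonneg h0 (Nat.cast_nonneg _))
    linarith
  have key := cnt_lower (E := allE n) h0 h1 (V \ (D ∪ B)) (fun w => row w (D ∪ B))
    (fun w hw => row_sub_allE (mem_sdiff.mp hw).2)
    (fun v hv w hw hvw => row_disjoint hvw (mem_sdiff.mp (mem_coe.mp hv)).2)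
    (fun w S => S ∩ row w D ≠ ∅ ∧ S ∩ row w B = ∅)
    (p * D.card * (1 - p * (D.card + B.card)))
    (fun w _ => by
      beta_reduce
      rw [row_union]
      have := Pr_hit_miss (row_disjoint' w hdis) h0 h1
      rwa [card_row, card_row] at this)
    hg0 he he1
  refine le_trans (Pr_mono h0 h1 ?_) key
  intro S _ hS
  refine le_trans (le_of_eq ?_) hS
  unfold cnt hitmiss
  congr 2
  ext w
  simp only [mem_filter]
  have e1 : S ∩ row w (D ∪ B) ∩ row w D = S ∩ row w D := inter_row_row S w subset_union_left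
  have e2 : S ∩ row w (D ∪ B) ∩ row w B = S ∩ row w B := inter_row_row S w subset_union_right
  rw [e1, e2, inter_row_ne, inter_row_eq]

theorem pow_inv_sum (V : Finset (Fin n)) (hn : 0 < n) :
    ∑ D ∈ V.powerset, (1 / (n : ℝ)) ^ D.card ≤ Real.exp 1 := by
  have hn' : (0 : ℝ) < n := by exact_mod_cast hn
  have h := Finset.sum_pow_mul_eq_add_pow (1 / (n : ℝ)) 1 V
  simp only [one_pow, mul_one] at h
  rw [h]
  calc (1 / (n : ℝ) + 1) ^ V.card ≤ (Real.exp (1 / n)) ^ V.card :=
        pow_le_pow_left₀ (by positivity) (Real.add_one_le_exp _) _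
    _ ≤ (Real.exp (1 / n)) ^ n := by
        apply pow_le_pow_right₀ (Real.one_le_exp (by positivity))
        have := card_le_univ V
        rwa [Fintype.card_fin] at this
    _ = Real.exp 1 := by
        rw [← Real.exp_nat_mul]
        congr 1
        field_simp

theorem expansion_bound (hn : 1 < n) (V : Finset (Fin n)) (hV : n ≤ 2 * V.card) {p ε : ℝ}
    (h0 : 0 ≤ p) (h1 : p ≤ 1) (he : 0 ≤ ε) (he1 : ε ≤ 1)
    (hbig : 112 * Real.log n ≤ ε ^ 2 * (n * p)) :
    Pr (allE n) p (fun S => ∃ D ⊆ V, ∃ B ⊆ V, Disjoint D B ∧ D.Nonempty ∧ B.card ≤ 2 * D.card ∧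
      p * (D.card + B.card) ≤ 1 / 2 ∧ 4 * (D.card + B.card) ≤ n ∧
      ((hitmiss S (V \ (D ∪ B)) D B).card : ℝ) ≤
        (1 - ε) * (p * D.card * (1 - p * (D.card + B.card)) * (V \ (D ∪ B)).card)) ≤ 8 / n ^ 3 := by
  have hn' : (0 : ℝ) < n := by exact_mod_cast (by omega : 0 < n)
  have hlog : 0 < Real.log n := Real.log_pos (by exact_mod_cast hn)
  let T : Finset (Finset (Fin n) × Finset (Fin n)) := (V.powerset ×ˢ V.powerset).filter
    (fun x => Disjoint x.1 x.2 ∧ x.1.Nonempty ∧ x.2.card ≤ 2 * x.1.card ∧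
      p * (x.1.card + x.2.card) ≤ 1 / 2 ∧ 4 * (x.1.card + x.2.card) ≤ n)
  calc Pr (allE n) p (fun S => ∃ D ⊆ V, ∃ B ⊆ V, Disjoint D B ∧ D.Nonempty ∧ B.card ≤ 2 * D.card ∧
      p * (D.card + B.card) ≤ 1 / 2 ∧ 4 * (D.card + B.card) ≤ n ∧
      ((hitmiss S (V \ (D ∪ B)) D B).card : ℝ) ≤
        (1 - ε) * (p * D.card * (1 - p * (D.card + B.card)) * (V \ (D ∪ B)).card))
      ≤ Pr (allE n) p (fun S => ∃ x ∈ T, ((hitmiss S (V \ (x.1 ∪ x.2)) x.1 x.2).card : ℝ) ≤
        (1 - ε) * (p * x.1.card * (1 - p * (x.1.card + x.2.card)) * (V \ (x.1 ∪ x.2)).card)) := by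
        apply Pr_mono h0 h1
        rintro S _ ⟨D, hD, B, hB, g1, g2, g3, g4, g5, g6⟩
        refine ⟨(D, B), ?_, g6⟩
        rw [mem_filter, mem_product, mem_powerset, mem_powerset]
        exact ⟨⟨hD, hB⟩, g1, g2, g3, g4, g5⟩
    _ ≤ ∑ x ∈ T, Pr (allE n) p (fun S => ((hitmiss S (V \ (x.1 ∪ x.2)) x.1 x.2).card : ℝ) ≤
        (1 - ε) * (p * x.1.card * (1 - p * (x.1.card + x.2.card)) * (V \ (x.1 ∪ x.2)).card)) :=
        Pr_exists_le h0 h1 _ _
    _ ≤ ∑ x ∈ T, (1 / (n : ℝ)) ^ 3 * ((1 / (n : ℝ)) ^ x.1.card * (1 / (n : ℝ)) ^ x.2.card) := by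
        apply sum_le_sum
        rintro ⟨D, B⟩ hx
        rw [mem_filter, mem_product, mem_powerset, mem_powerset] at hx
        obtain ⟨⟨hD, hB⟩, g1, g2, g3, g4, g5⟩ := hx
        simp only at hD hB g1 g2 g3 g4 g5 ⊢
        refine (hitmiss_bound V D B g1 h0 h1 he he1 g4).trans ?_
        have hdpos : 1 ≤ D.card := g2.card_pos
        have hd1 : (1 : ℝ) ≤ D.card := by exact_mod_cast hdpos
        have hW : (n : ℝ) / 4 ≤ (V \ (D ∪ B)).card := by
          have h2 : (V \ (D ∪ B)).card + (D ∪ B).card ≥ V.card := by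
            rw [card_sdiff_add_card]
            exact card_le_card subset_union_left
          have h3 : (D ∪ B).card = D.card + B.card := card_union_of_disjoint g1
          have h4 : n ≤ 4 * (V \ (D ∪ B)).card := by omega
          have h5 : (n : ℝ) ≤ 4 * (V \ (D ∪ B)).card := by exact_mod_cast h4
          linarith
        have hkey : 7 * (D.card : ℝ) * Real.log n ≤
            ε ^ 2 / 2 * (p * D.card * (1 - p * (D.card + B.card)) * (V \ (D ∪ B)).card) := by
          have a1 : p * D.card * (1 / 2) ≤ p * D.card * (1 - p * (D.card + B.card)) := by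
            apply mul_le_mul_of_nonneg_left _ (mul_nonneg h0 (Nat.cast_nonneg _))
            linarith
          have a2 : p * D.card * (1 / 2) * (n / 4) ≤
              p * D.card * (1 - p * (D.card + B.card)) * (V \ (D ∪ B)).card := by
            apply mul_le_mul a1 hW (by positivity)
            exact le_trans (by positivity) a1
          have a3 : ε ^ 2 / 2 * (p * D.card * (1 / 2) * (n / 4)) ≤
              ε ^ 2 / 2 * (p * D.card * (1 - p * (D.card + B.card)) * (V \ (D ∪ B)).card) :=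
            mul_le_mul_of_nonneg_left a2 (by positivity)
          have a4 : (D.card : ℝ) * (112 * Real.log n) ≤ D.card * (ε ^ 2 * (n * p)) :=
            mul_le_mul_of_nonneg_left hbig (Nat.cast_nonneg _)
          nlinarith
        have hb : (B.card : ℝ) ≤ 2 * D.card := by exact_mod_cast g3
        have e1 : (1 / (n : ℝ)) = Real.exp (-Real.log n) := by
          rw [Real.exp_neg, Real.exp_log hn', one_div]
        rw [e1, ← Real.exp_nat_mul, ← Real.exp_nat_mul, ← Real.exp_nat_mul, ← Real.exp_add,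
          ← Real.exp_add]
        apply Real.exp_le_exp.mpr
        push_cast
        nlinarith
    _ ≤ ∑ x ∈ V.powerset ×ˢ V.powerset, (1 / (n : ℝ)) ^ 3 * ((1 / (n : ℝ)) ^ x.1.card * (1 / (n : ℝ)) ^ x.2.card) := by
        apply sum_le_sum_of_subset_of_nonneg (filter_subset _ _)
        intro x _ _
        positivity
    _ = (1 / (n : ℝ)) ^ 3 * ((∑ D ∈ V.powerset, (1 / (n : ℝ)) ^ D.card) *
          (∑ D ∈ V.powerset, (1 / (n : ℝ)) ^ D.card)) := by
        rw [← mul_sum, sum_mul_sum, sum_product]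
    _ ≤ (1 / (n : ℝ)) ^ 3 * (Real.exp 1 * Real.exp 1) := by
        have h5 := pow_inv_sum V (by omega)
        have h6 : 0 ≤ ∑ D ∈ V.powerset, (1 / (n : ℝ)) ^ D.card := sum_nonneg (fun _ _ => by positivity)
        gcongr
    _ ≤ 8 / n ^ 3 := by
        have h2 : Real.exp 1 * Real.exp 1 ≤ 8 := by
          have := Real.exp_one_lt_d9
          have := Real.exp_pos 1
          nlinarith
        calc (1 / (n : ℝ)) ^ 3 * (Real.exp 1 * Real.exp 1) ≤ (1 / (n : ℝ)) ^ 3 * 8 :=
              mul_le_mul_of_nonneg_left h2 (by positivity)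
          _ = 8 / n ^ 3 := by ring

theorem degree_bound (hn : 1 < n) (V : Finset (Fin n)) {p ε : ℝ}
    (h0 : 0 ≤ p) (h1 : p ≤ 1) (he : 0 ≤ ε) (he1 : ε ≤ 1)
    (hbig : 112 * Real.log n ≤ ε ^ 2 * (n * p)) :
    Pr (allE n) p (fun S => ∃ v ∈ V, (1 + ε) * (n * p) ≤
      (((V.erase v).filter (fun w => s(v, w) ∈ S)).card : ℝ)) ≤ 1 / n ^ 3 := by
  have hn' : (0 : ℝ) < n := by exact_mod_cast (by omega : 0 < n)
  have hn1 : (1 : ℝ) ≤ n := by exact_mod_cast (by omega : 1 ≤ n)
  have hlog : 0 < Real.log n := Real.log_pos (by exact_mod_cast hn)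
  refine (Pr_exists_le h0 h1 _ _).trans ?_
  calc ∑ v ∈ V, Pr (allE n) p (fun S => (1 + ε) * (n * p) ≤
      (((V.erase v).filter (fun w => s(v, w) ∈ S)).card : ℝ))
      ≤ ∑ _v ∈ V, (1 / (n : ℝ)) ^ 4 := by
        apply sum_le_sum
        intro v _
        have h2 : p * (row v (V.erase v)).card ≤ n * p := by
          rw [card_row, mul_comm]
          apply mul_le_mul_of_nonneg_right _ h0
          have := card_le_univ (V.erase v)
          rw [Fintype.card_fin] at this
          exact_mod_cast this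
        have h3 := card_upper (E := allE n) (Z := row v (V.erase v))
          (row_sub_allE (notMem_erase v V)) h0 h1 he he1 h2
        simp only [card_inter_row] at h3
        refine h3.trans ?_
        have e1 : (1 / (n : ℝ)) = Real.exp (-Real.log n) := by
          rw [Real.exp_neg, Real.exp_log hn', one_div]
        rw [e1, ← Real.exp_nat_mul]
        apply Real.exp_le_exp.mpr
        push_cast
        nlinarith
    _ = V.card * (1 / (n : ℝ)) ^ 4 := by rw [sum_const, nsmul_eq_mul]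
    _ ≤ n * (1 / (n : ℝ)) ^ 4 := by
        apply mul_le_mul_of_nonneg_right _ (by positivity)
        have := card_le_univ V
        rw [Fintype.card_fin] at this
        exact_mod_cast this
    _ = 1 / n ^ 3 := by
        field_simp

end Pool.Agent.W963.LogDepth
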