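import Pool.Agent.W963.LogDepth.Expan

set_option autoImplicit false
set_option linter.unusedSectionVars false

/-! The process on edge sets: recurrence, dependence, one expansion step, one thinning step. -/

namespace Pool.Agent.W963.LogDepth

open Finset Pool.Agent.W166.Gnp Classical

variable {n : ℕ}

/-- the process -/
noncomputable def Ts (V : Finset (Fin n)) (e : ℕ → Bool) (zz : ℕ → Fin n)
    (S : Finset (Sym2 (Fin n))) (y : Fin n) : ℕ → Finset (Fin n)
  | 0 => {y}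
  | i + 1 => if e i = true then V.filter (fun w => ∃ u ∈ Ts V e zz S y i, s(u, w) ∈ S)
      else (Ts V e zz S y i).filter (fun w => s(zz i, w) ∈ S)

theorem Ts_sub {V : Finset (Fin n)} {e : ℕ → Bool} {zz : ℕ → Fin n}
    {S : Finset (Sym2 (Fin n))} {y : Fin n} (hy : y ∈ V) : ∀ i, Ts V e zz S y i ⊆ V := by
  intro i
  induction i with
  | zero => simpa [Ts] using hy
  | succ i ih =>
    by_cases h : e i = true
    · simp only [Ts, h, if_true]
      exact filter_subset _ _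
    · simp only [Ts, h]
      exact (filter_subset _ _).trans ih

/-- the process depends only on the edges inside `V` and the rows of the thinning vertices -/
theorem Ts_congr {V : Finset (Fin n)} {e : ℕ → Bool} {zz : ℕ → Fin n}
    {S S' : Finset (Sym2 (Fin n))} {y : Fin n} (hy : y ∈ V) (i : ℕ)
    (h1 : ∀ a ∈ V, ∀ b ∈ V, (s(a, b) ∈ S ↔ s(a, b) ∈ S'))
    (h2 : ∀ j < i, ∀ b ∈ V, (s(zz j, b) ∈ S ↔ s(zz j, b) ∈ S')) :
    Ts V e zz S y i = Ts V e zz S' y i := by
  induction i with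
  | zero => rfl
  | succ i ih =>
    have ih' := ih (fun j hj => h2 j (hj.trans (Nat.lt_succ_self i)))
    by_cases h : e i = true
    · simp only [Ts, h, if_true, ih']
      apply filter_congr
      intro w hw
      constructor
      · rintro ⟨u, hu, huw⟩
        exact ⟨u, hu, (h1 u (Ts_sub hy i hu) w hw).mp huw⟩
      · rintro ⟨u, hu, huw⟩
        exact ⟨u, hu, (h1 u (Ts_sub hy i hu) w hw).mpr huw⟩
    · simp only [Ts, h, ih']
      apply filter_congr
      intro w hw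
      exact h2 i (Nat.lt_succ_self i) w (Ts_sub hy i hw)

/-- adding edges of a fresh row does not change the process -/
theorem Ts_fresh {V : Finset (Fin n)} {e : ℕ → Bool} {zz : ℕ → Fin n}
    {S1 S2 : Finset (Sym2 (Fin n))} {y : Fin n} (hy : y ∈ V) (i : ℕ) (X : Finset (Fin n))
    (hX : ∀ x ∈ X, x ∉ V) (hz : ∀ j < i, zz j ∉ X)

    (hS2 : ∀ q ∈ S2, ∃ x ∈ X, q ∈ row x V) :
    Ts V e zz (S1 ∪ S2) y i = Ts V e zz S1 y i := by
  apply Ts_congr hy
  · intro a ha b hb
    rw [mem_union]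
    constructor
    · rintro (h | h)
      · exact h
      · exfalso
        obtain ⟨x, hx, hq⟩ := hS2 _ h
        rw [mem_row] at hq
        obtain ⟨w, hw, hq⟩ := hq
        rw [Sym2.eq_iff] at hq
        rcases hq with ⟨h1, _⟩ | ⟨h1, _⟩
        · exact hX x hx (h1 ▸ ha)
        · exact hX x hx (h1 ▸ hb)
    · exact Or.inl
  · intro j hj b hb
    rw [mem_union]
    constructor
    · rintro (h | h)
      · exact h
      · exfalso
        obtain ⟨x, hx, hq⟩ := hS2 _ h
        rw [mem_row] at hq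
        obtain ⟨w, hw, hq⟩ := hq
        rw [Sym2.eq_iff] at hq
        rcases hq with ⟨h1, _⟩ | ⟨h1, _⟩
        · exact hz j hj (h1 ▸ hx)
        · exact hX x hx (h1 ▸ hb)
    · exact Or.inl

/-- no large degrees in `V` -/
def DegOK (V : Finset (Fin n)) (p ε : ℝ) (S : Finset (Sym2 (Fin n))) : Prop :=
  ¬ ∃ v ∈ V, (1 + ε) * (n * p) ≤ (((V.erase v).filter (fun w => s(v, w) ∈ S)).card : ℝ)

/-- uniform expansion -/
def ExpOK (V : Finset (Fin n)) (p ε : ℝ) (S : Finset (Sym2 (Fin n))) : Prop :=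
  ¬ ∃ D ⊆ V, ∃ B ⊆ V, Disjoint D B ∧ D.Nonempty ∧ B.card ≤ 2 * D.card ∧
      p * (D.card + B.card) ≤ 1 / 2 ∧ 4 * (D.card + B.card) ≤ n ∧
      ((hitmiss S (V \ (D ∪ B)) D B).card : ℝ) ≤
        (1 - ε) * (p * D.card * (1 - p * (D.card + B.card)) * (V \ (D ∪ B)).card)

theorem expand_upper {V : Finset (Fin n)} {e : ℕ → Bool} {zz : ℕ → Fin n} {p ε : ℝ}
    {S : Finset (Sym2 (Fin n))} (hS : S ⊆ allE n) {y : Fin n} (hy : y ∈ V) (i : ℕ)
    (he : e i = true) (hdeg : DegOK V p ε S) :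
    ((Ts V e zz S y (i + 1)).card : ℝ) ≤ (1 + ε) * (n * p) * (Ts V e zz S y i).card := by
  have hsub : Ts V e zz S y (i + 1) ⊆ (Ts V e zz S y i).biUnion
      (fun v => (V.erase v).filter (fun w => s(v, w) ∈ S)) := by
    intro w hw
    simp only [Ts, he, if_true, mem_filter] at hw
    obtain ⟨hwV, u, hu, huw⟩ := hw
    rw [mem_biUnion]
    refine ⟨u, hu, ?_⟩
    rw [mem_filter, mem_erase]
    refine ⟨⟨?_, hwV⟩, huw⟩
    exact (mem_allE.mp (hS huw)).symm
  have h2 : ((Ts V e zz S y (i + 1)).card : ℝ) ≤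
      ∑ v ∈ Ts V e zz S y i, (((V.erase v).filter (fun w => s(v, w) ∈ S)).card : ℝ) := by
    exact_mod_cast (card_le_card hsub).trans card_biUnion_le
  refine h2.trans ?_
  calc ∑ v ∈ Ts V e zz S y i, (((V.erase v).filter (fun w => s(v, w) ∈ S)).card : ℝ)
      ≤ ∑ _v ∈ Ts V e zz S y i, (1 + ε) * (n * p) := by
        apply sum_le_sum
        intro v hv
        by_contra hlt
        push Not at hlt
        exact hdeg ⟨v, Ts_sub hy i hv, hlt.le⟩
    _ = (1 + ε) * (n * p) * (Ts V e zz S y i).card := by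
        rw [sum_const, nsmul_eq_mul]; ring

theorem expand_lower {V : Finset (Fin n)} {e : ℕ → Bool} {zz : ℕ → Fin n} {p ε : ℝ}
    {S : Finset (Sym2 (Fin n))} {y y' : Fin n} (hy : y ∈ V) (hy' : y' ∈ V)
    (i : ℕ) (he : e i = true) (hexp : ExpOK V p ε S)
    (hne : (Ts V e zz S y i \ Ts V e zz S y' i).Nonempty)
    (hB : (Ts V e zz S y' i).card ≤ 2 * (Ts V e zz S y i \ Ts V e zz S y' i).card)
    (hp : p * ((Ts V e zz S y i \ Ts V e zz S y' i).card + (Ts V e zz S y' i).card) ≤ 1 / 2)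
    (hn : 4 * ((Ts V e zz S y i \ Ts V e zz S y' i).card + (Ts V e zz S y' i).card) ≤ n) :
    (1 - ε) * (p * (Ts V e zz S y i \ Ts V e zz S y' i).card *
      (1 - p * ((Ts V e zz S y i \ Ts V e zz S y' i).card + (Ts V e zz S y' i).card)) *
      (V \ ((Ts V e zz S y i \ Ts V e zz S y' i) ∪ Ts V e zz S y' i)).card) ≤
    ((Ts V e zz S y (i + 1) \ Ts V e zz S y' (i + 1)).card : ℝ) := by
  by_contra hlt
  push Not at hlt
  apply hexp
  refine ⟨Ts V e zz S y i \ Ts V e zz S y' i, sdiff_subset.trans (Ts_sub hy i),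
    Ts V e zz S y' i, Ts_sub hy' i, sdiff_disjoint, hne, hB, hp, hn, ?_⟩
  refine le_trans ?_ hlt.le
  have hsub : hitmiss S (V \ ((Ts V e zz S y i \ Ts V e zz S y' i) ∪ Ts V e zz S y' i))
      (Ts V e zz S y i \ Ts V e zz S y' i) (Ts V e zz S y' i) ⊆
      Ts V e zz S y (i + 1) \ Ts V e zz S y' (i + 1) := by
    intro w hw
    simp only [hitmiss, mem_filter, mem_sdiff] at hw
    obtain ⟨⟨hwV, _⟩, ⟨u, ⟨hu, _⟩, huw⟩, h3⟩ := hw
    rw [mem_sdiff]
    simp only [Ts, he, if_true, mem_filter]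
    refine ⟨⟨hwV, u, hu, ?_⟩, ?_⟩
    · rwa [Sym2.eq_swap]
    · rintro ⟨_, u', hu', h4⟩
      apply h3 u' hu'
      rwa [Sym2.eq_swap]
  exact_mod_cast card_le_card hsub

end Pool.Agent.W963.LogDepth
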