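import Pool.Agent.W963.LogDepth.Thin

set_option autoImplicit false
set_option linter.unusedSectionVars false

/-! The expansion step and the induction over the steps. -/

namespace Pool.Agent.W963.LogDepth

open Finset Pool.Agent.W166.Gnp Classical

variable {n : ℕ}

theorem expand_good {V : Finset (Fin n)} {e : ℕ → Bool} {zz : ℕ → Fin n} {r τ : ℕ → ℝ}
    {p ε η mm : ℝ} {S : Finset (Sym2 (Fin n))} (hS : S ⊆ allE n) (i : ℕ)
    (he : e i = true) (hdeg : DegOK V p ε S) (hexp : ExpOK V p ε S)
    (hn : 0 < n) (h0 : 0 ≤ p) (hnp : 1 ≤ n * p)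
    (hε0 : 0 ≤ ε) (hη1 : η ≤ 1) (hmm : 0 ≤ mm) (hV : (n : ℝ) - mm ≤ V.card)
    (hr : r (i + 1) = r i + η) (hr0 : 0 ≤ r i) (hr1 : r i ≤ 1 / 4)
    (hτ : τ (i + 1) = n * p * τ i) (hτ0 : 0 < τ i)
    (hη : ε + mm / n + 6 * (τ (i + 1) / n) ≤ η / 2)
    (hG : Good V e zz r τ S i) : Good V e zz r τ S (i + 1) := by
  have hn' : (0 : ℝ) < n := by exact_mod_cast hn
  have hmmn : 0 ≤ mm / n := div_nonneg hmm hn'.le
  have hτ1 : 0 < τ (i + 1) := by rw [hτ]; positivity
  have hτn : 0 < τ (i + 1) / n := div_pos hτ1 hn'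
  have hη0 : 0 ≤ η := by linarith
  have hle : τ i ≤ τ (i + 1) := by rw [hτ]; nlinarith
  have hexp14 : Real.exp (r i) ≤ 3 / 2 := by
    have h1 : Real.exp (r i) ≤ Real.exp (1 / 4) := Real.exp_le_exp.mpr hr1
    have h2 : Real.exp (1 / 4) ≤ 3 / 2 := by
      have h3 := Real.abs_exp_sub_one_sub_id_le (x := (1 / 4 : ℝ)) (by norm_num [abs_le])
      have := (abs_le.mp h3).2
      linarith
    linarith
  have hexpn : 3 / 4 ≤ Real.exp (-(r i)) := by
    have := Real.add_one_le_exp (-(r i))
    linarith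
  have hee : Real.exp (-(r i)) * Real.exp (r i) = 1 := by rw [← Real.exp_add]; simp
  intro y hy
  constructor
  · have h1 := expand_upper (zz := zz) hS hy i he hdeg
    have h2 := (hG y hy).1
    have h3 : ε ≤ η := by linarith
    have h4 := Real.add_one_le_exp η
    calc ((Ts V e zz S y (i + 1)).card : ℝ) ≤ (1 + ε) * (n * p) * (Ts V e zz S y i).card := h1
      _ ≤ (1 + ε) * (n * p) * (Real.exp (r i) * τ i) :=
          mul_le_mul_of_nonneg_left h2 (by positivity)
      _ = (1 + ε) * (Real.exp (r i) * τ (i + 1)) := by rw [hτ]; ring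
      _ ≤ Real.exp η * (Real.exp (r i) * τ (i + 1)) :=
          mul_le_mul_of_nonneg_right (by linarith) (by positivity)
      _ = Real.exp (r (i + 1)) * τ (i + 1) := by rw [hr, Real.exp_add]; ring
  · intro y' hy' hne
    have hA := (hG y hy).1
    have hB := (hG y' hy').1
    have hD := (hG y hy).2 y' hy' hne
    set D := Ts V e zz S y i \ Ts V e zz S y' i with hDdef
    set B := Ts V e zz S y' i with hBdef
    have hDA : (D.card : ℝ) ≤ (Ts V e zz S y i).card := by
      exact_mod_cast card_le_card sdiff_subset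
    have hDpos : 0 < (D.card : ℝ) := lt_of_lt_of_le (by positivity) hD
    have hne' : D.Nonempty := by
      rw [← card_pos]; exact_mod_cast hDpos
    have hBD : (B.card : ℝ) ≤ 2 * D.card := by
      calc (B.card : ℝ) ≤ Real.exp (r i) * τ i := hB
        _ ≤ 3 / 2 * τ i := mul_le_mul_of_nonneg_right hexp14 hτ0.le
        _ = 2 * (3 / 4 * τ i) := by ring
        _ ≤ 2 * (Real.exp (-(r i)) * τ i) := by
            have := mul_le_mul_of_nonneg_right hexpn hτ0.le
            linarith
        _ ≤ 2 * D.card := by linarith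
    have ha : (D.card : ℝ) + B.card ≤ 3 * τ i := by
      have := mul_le_mul_of_nonneg_right hexp14 hτ0.le
      linarith
    have hτi : p * (3 * τ i) = 3 * (τ (i + 1) / n) := by
      rw [hτ]; field_simp
    have hpa : p * ((D.card : ℝ) + B.card) ≤ 3 * (τ (i + 1) / n) := by
      rw [← hτi]
      exact mul_le_mul_of_nonneg_left ha h0
    have han : ((D.card : ℝ) + B.card) / n ≤ 3 * (τ (i + 1) / n) := by
      rw [← mul_div_assoc]
      apply div_le_div_of_nonneg_right _ hn'.le
      linarith
    have hlow := expand_lower (zz := zz) hy hy' i he hexp hne' (by exact_mod_cast hBD)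
      (by
        have : p * ((D.card : ℝ) + B.card) ≤ 1 / 2 := by linarith
        exact this)
      (by
        have h4 : ((D.card : ℝ) + B.card) / n ≤ 1 / 4 := by linarith
        rw [div_le_iff₀ hn'] at h4
        have h5 : (4 * ((D.card : ℝ) + B.card)) ≤ n := by linarith
        exact_mod_cast h5)
    refine le_trans ?_ hlow
    have hW : (n : ℝ) * (1 - mm / n - ((D.card : ℝ) + B.card) / n) ≤ (V \ (D ∪ B)).card := by
      have h6 : V.card ≤ (V \ (D ∪ B)).card + (D ∪ B).card := by
        rw [card_sdiff_add_card]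
        exact card_le_card subset_union_left
      have h7 : (D ∪ B).card ≤ D.card + B.card := card_union_le _ _
      have h8 : (V.card : ℝ) ≤ (V \ (D ∪ B)).card + (D.card + B.card) := by
        exact_mod_cast h6.trans (Nat.add_le_add_left h7 _)
      have h9 : (n : ℝ) * (1 - mm / n - ((D.card : ℝ) + B.card) / n) = n - mm - (D.card + B.card) := by
        field_simp
      rw [h9]
      linarith
    -- assemble
    have hx1 : 0 ≤ 1 - ε := by linarith
    have hx2 : 0 ≤ 1 - p * ((D.card : ℝ) + B.card) := by linarith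
    have hx3 : 0 ≤ 1 - mm / n - ((D.card : ℝ) + B.card) / n := by linarith
    have hy2 : 0 ≤ p * ((D.card : ℝ) + B.card) := by positivity
    have hy3 : 0 ≤ mm / n + ((D.card : ℝ) + B.card) / n := by positivity
    have hprod : 1 - η / 2 ≤ (1 - ε) * ((1 - p * ((D.card : ℝ) + B.card)) *
        (1 - mm / n - ((D.card : ℝ) + B.card) / n)) := by
      have h10 : 1 - p * ((D.card : ℝ) + B.card) - (mm / n + ((D.card : ℝ) + B.card) / n) ≤
          (1 - p * ((D.card : ℝ) + B.card)) * (1 - mm / n - ((D.card : ℝ) + B.card) / n) := by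
        nlinarith [mul_nonneg hy2 hy3]
      have h11 : 0 ≤ 1 - p * ((D.card : ℝ) + B.card) - (mm / n + ((D.card : ℝ) + B.card) / n) := by
        linarith
      have h12 : (1 - ε) * (1 - p * ((D.card : ℝ) + B.card) - (mm / n + ((D.card : ℝ) + B.card) / n)) ≤
          (1 - ε) * ((1 - p * ((D.card : ℝ) + B.card)) *
            (1 - mm / n - ((D.card : ℝ) + B.card) / n)) := mul_le_mul_of_nonneg_left h10 hx1
      refine le_trans ?_ h12
      have h13 : 0 ≤ p * ((D.card : ℝ) + B.card) + (mm / n + ((D.card : ℝ) + B.card) / n) := by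
        positivity
      nlinarith [mul_nonneg hε0 h13]
    have h14 := exp_neg_le_of_le_one hη0 hη1
    calc Real.exp (-(r (i + 1))) * τ (i + 1)
        = Real.exp (-η) * ((n * p) * (Real.exp (-(r i)) * τ i)) := by
          rw [hr, neg_add, Real.exp_add, hτ]; ring
      _ ≤ Real.exp (-η) * ((n * p) * D.card) := by
          apply mul_le_mul_of_nonneg_left _ (Real.exp_pos _).le
          exact mul_le_mul_of_nonneg_left hD (by positivity)
      _ ≤ ((1 - ε) * ((1 - p * ((D.card : ℝ) + B.card)) *
            (1 - mm / n - ((D.card : ℝ) + B.card) / n))) * ((n * p) * D.card) := by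
          apply mul_le_mul_of_nonneg_right (h14.trans hprod) (by positivity)
      _ = (1 - ε) * (p * D.card * (1 - p * (D.card + B.card)) *
            (n * (1 - mm / n - ((D.card : ℝ) + B.card) / n))) := by ring
      _ ≤ (1 - ε) * (p * D.card * (1 - p * (D.card + B.card)) * (V \ (D ∪ B)).card) := by
          apply mul_le_mul_of_nonneg_left _ hx1
          apply mul_le_mul_of_nonneg_left hW
          exact mul_nonneg (mul_nonneg h0 hDpos.le) hx2

theorem good_prob {V : Finset (Fin n)} {e : ℕ → Bool} {zz : ℕ → Fin n} {r τ η : ℕ → ℝ}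
    {p ε Λ mm : ℝ} (M0 : ℕ) (hn : 0 < n) (h0 : 0 ≤ p) (h1 : p ≤ 1) (hnp : 1 ≤ n * p)
    (hε0 : 0 ≤ ε) (hmm : 0 ≤ mm) (hV : (n : ℝ) - mm ≤ V.card)
    (hz : ∀ i < M0, zz i ∉ V) (hzj : ∀ i < M0, ∀ j < i, zz j ≠ zz i)
    (hη0 : ∀ i < M0, 0 ≤ η i) (hη1 : ∀ i < M0, η i ≤ 1)
    (hr0 : r 0 = 0) (hr : ∀ i < M0, r (i + 1) = r i + η i)
    (hrb : ∀ i ≤ M0, 0 ≤ r i ∧ r i ≤ 1 / 4)
    (hτ00 : τ 0 = 1) (hτ0 : ∀ i ≤ M0, 0 < τ i)
    (hτe : ∀ i < M0, e i = true → τ (i + 1) = n * p * τ i)
    (hτt : ∀ i < M0, e i = false → τ (i + 1) = p * τ i)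
    (hηe : ∀ i < M0, ε + mm / n + 6 * (τ (i + 1) / n) ≤ η i / 2)
    (hηt : ∀ i < M0, 64 * Λ ≤ (η i) ^ 2 * τ (i + 1)) :
    Pr (allE n) p (fun S => ¬ Good V e zz r τ S M0 ∧ DegOK V p ε S ∧ ExpOK V p ε S) ≤
      M0 * (((V.card : ℝ) + V.card * V.card) * Real.exp (-(4 * Λ))) := by
  calc Pr (allE n) p (fun S => ¬ Good V e zz r τ S M0 ∧ DegOK V p ε S ∧ ExpOK V p ε S)
      ≤ Pr (allE n) p (fun S => ∃ i ∈ (range M0).filter (fun i => e i = false),
          Good V e zz r τ S i ∧ ¬ Good V e zz r τ S (i + 1)) := by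
        apply Pr_mono h0 h1
        rintro S hS ⟨hbad, hdeg, hexp⟩
        by_contra hcon
        push Not at hcon
        apply hbad
        have : ∀ i ≤ M0, Good V e zz r τ S i := by
          intro i
          induction i with
          | zero => intro _; exact good_zero V e zz r τ S hr0.ge hτ00
          | succ i ih =>
            intro hi
            have hi' : i < M0 := hi
            have hG := ih hi'.le
            cases he : e i with
            | true =>
              exact expand_good hS i he hdeg hexp hn h0 hnp hε0 (hη1 i hi') hmm hV (hr i hi')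
                (hrb i hi'.le).1 (hrb i hi'.le).2 (hτe i hi' he) (hτ0 i hi'.le) (hηe i hi') hG
            | false =>
              exact hcon i (by rw [mem_filter, mem_range]; exact ⟨hi', he⟩) hG
        exact this M0 le_rfl
    _ ≤ ∑ i ∈ (range M0).filter (fun i => e i = false), Pr (allE n) p
          (fun S => Good V e zz r τ S i ∧ ¬ Good V e zz r τ S (i + 1)) := Pr_exists_le h0 h1 _ _
    _ ≤ ∑ _i ∈ (range M0).filter (fun i => e i = false),
          (((V.card : ℝ) + V.card * V.card) * Real.exp (-(4 * Λ))) := by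
        apply sum_le_sum
        intro i hi
        rw [mem_filter, mem_range] at hi
        obtain ⟨hi, he⟩ := hi
        exact thin_step i he (hz i hi) (hzj i hi) h0 h1 (hη0 i hi) (hη1 i hi) (hr i hi)
          (hrb i hi.le).1 (by linarith [(hrb i hi.le).2]) (hτt i hi he) (hτ0 i hi.le).le (hηt i hi)
    _ = (((range M0).filter (fun i => e i = false)).card : ℝ) *
          (((V.card : ℝ) + V.card * V.card) * Real.exp (-(4 * Λ))) := by
        rw [sum_const, nsmul_eq_mul]
    _ ≤ M0 * (((V.card : ℝ) + V.card * V.card) * Real.exp (-(4 * Λ))) := by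
        apply mul_le_mul_of_nonneg_right _ (by positivity)
        have := card_filter_le (range M0) (fun i => e i = false)
        rw [card_range] at this
        exact_mod_cast this

end Pool.Agent.W963.LogDepth
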