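import Pool.Agent.W963.LogDepth.Proc

set_option autoImplicit false
set_option linter.unusedSectionVars false

/-! One thinning step, and the induction on the steps. -/

namespace Pool.Agent.W963.LogDepth

open Finset Pool.Agent.W166.Gnp Classical

theorem Pr_fub0 {α : Type} [DecidableEq α] {E E2 : Finset α} (hd : E2 ⊆ E) {p : ℝ}
    (h0 : 0 ≤ p) (h1 : p ≤ 1) (A : Finset α → Prop) (η : ℝ)
    (hA2 : ∀ S1, S1 ⊆ E \ E2 → Pr E2 p (fun S2 => A (S1 ∪ S2)) ≤ η) :
    Pr E p A ≤ η := by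
  have e1 : Pr E p A = Ex (E \ E2) p (fun S1 => Pr E2 p (fun S2 => A (S1 ∪ S2))) := by
    have hE : E = (E \ E2) ∪ E2 := (sdiff_union_of_subset hd).symm
    conv_lhs => rw [hE]
    unfold Pr
    rw [Ex_union sdiff_disjoint]
  rw [e1]
  calc Ex (E \ E2) p (fun S1 => Pr E2 p (fun S2 => A (S1 ∪ S2)))
      ≤ Ex (E \ E2) p (fun _ => η) := Ex_mono h0 h1 (fun S1 hS1 => hA2 S1 hS1)
    _ = η := Ex_const _ _ _

theorem Pr_false {α : Type} [DecidableEq α] (E : Finset α) (p : ℝ) {A : Finset α → Prop}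
    (h : ∀ S, S ⊆ E → ¬ A S) : Pr E p A = 0 := by
  have : Pr E p A = Ex E p (fun _ => (0 : ℝ)) := by
    unfold Pr
    apply Ex_congr
    intro S hS
    rw [if_neg (h S hS)]
  rw [this, Ex_const]

variable {n : ℕ}

/-- the invariant -/
def Good (V : Finset (Fin n)) (e : ℕ → Bool) (zz : ℕ → Fin n) (r τ : ℕ → ℝ)
    (S : Finset (Sym2 (Fin n))) (i : ℕ) : Prop :=
  ∀ y ∈ V, ((Ts V e zz S y i).card : ℝ) ≤ Real.exp (r i) * τ i ∧
    ∀ y' ∈ V, y' ≠ y →
      Real.exp (-(r i)) * τ i ≤ ((Ts V e zz S y i \ Ts V e zz S y' i).card : ℝ)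

theorem good_zero (V : Finset (Fin n)) (e : ℕ → Bool) (zz : ℕ → Fin n) (r τ : ℕ → ℝ)
    (S : Finset (Sym2 (Fin n))) (hr : 0 ≤ r 0) (hτ : τ 0 = 1) : Good V e zz r τ S 0 := by
  intro y _
  constructor
  · simp only [Ts, card_singleton, hτ, mul_one, Nat.cast_one]
    exact Real.one_le_exp hr
  · intro y' _ hne
    have : ({y} : Finset (Fin n)) \ {y'} = {y} := by
      rw [Finset.sdiff_eq_self_iff_disjoint, disjoint_singleton]
      exact hne.symm
    simp only [Ts, this, card_singleton, hτ, mul_one, Nat.cast_one]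
    rw [Real.exp_le_one_iff]
    linarith

theorem exp_neg_le_of_le_one {η : ℝ} (h0 : 0 ≤ η) (h1 : η ≤ 1) : Real.exp (-η) ≤ 1 - η / 2 := by
  have h3 := Real.abs_exp_sub_one_sub_id_le (x := -η) (by
    rw [abs_neg, abs_of_nonneg h0]; exact h1)
  have h4 := Real.quadratic_le_exp_of_nonneg h0
  have h5 : Real.exp (-η) * Real.exp η = 1 := by rw [← Real.exp_add]; simp
  have h6 : 0 < Real.exp η := Real.exp_pos _
  have h7 : 1 ≤ (1 - η / 2) * Real.exp η := by
    calc (1 : ℝ) ≤ (1 - η / 2) * (1 + η + η ^ 2 / 2) := by nlinarith [mul_nonneg h0 h0, mul_nonneg h0 (sub_nonneg.mpr h1)]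
      _ ≤ _ := mul_le_mul_of_nonneg_left h4 (by linarith)
  nlinarith

theorem thin_step {V : Finset (Fin n)} {e : ℕ → Bool} {zz : ℕ → Fin n} {r τ : ℕ → ℝ} {p η Λ : ℝ}
    (i : ℕ) (he : e i = false) (hz : zz i ∉ V) (hzj : ∀ j < i, zz j ≠ zz i)
    (h0 : 0 ≤ p) (h1 : p ≤ 1) (hη0 : 0 ≤ η) (hη1 : η ≤ 1) (hr : r (i + 1) = r i + η)
    (hr0 : 0 ≤ r i) (hr1 : r i ≤ 1 / 2) (hτ : τ (i + 1) = p * τ i) (hτ0 : 0 ≤ τ i)
    (hΛ : 64 * Λ ≤ η ^ 2 * τ (i + 1)) :
    Pr (allE n) p (fun S => Good V e zz r τ S i ∧ ¬ Good V e zz r τ S (i + 1)) ≤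
      ((V.card : ℝ) + V.card * V.card) * Real.exp (-(4 * Λ)) := by
  have hτ1 : 0 ≤ τ (i + 1) := by rw [hτ]; exact mul_nonneg h0 hτ0
  have hηh : η / 2 ≤ 1 := by linarith
  have hηh0 : 0 ≤ η / 2 := by linarith
  apply Pr_fub0 (E2 := row (zz i) V) (row_sub_allE hz) h0 h1
  intro S1 hS1
  -- the sets at time `i` do not depend on `S2`
  have hfresh : ∀ S2, S2 ⊆ row (zz i) V → ∀ y ∈ V, Ts V e zz (S1 ∪ S2) y i = Ts V e zz S1 y i := by
    intro S2 hS2 y hy
    apply Ts_fresh hy i {zz i}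
    · intro x hx
      rw [mem_singleton] at hx
      subst hx; exact hz
    · intro j hj
      rw [mem_singleton]
      exact hzj j hj
    · intro q hq
      exact ⟨zz i, mem_singleton_self _, hS2 hq⟩
  have hS1z : ∀ w ∈ V, s(zz i, w) ∉ S1 := by
    intro w hw hmem
    have := hS1 hmem
    rw [mem_sdiff] at this
    exact this.2 (mem_row.mpr ⟨w, hw, rfl⟩)
  have hgi : ∀ S2, S2 ⊆ row (zz i) V → (Good V e zz r τ (S1 ∪ S2) i ↔ Good V e zz r τ S1 i) := by
    intro S2 hS2
    unfold Good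
    constructor
    · intro h y hy
      have h2 := h y hy
      rw [hfresh S2 hS2 y hy] at h2
      refine ⟨h2.1, fun y' hy' hne => ?_⟩
      have h3 := h2.2 y' hy' hne
      rwa [hfresh S2 hS2 y' hy'] at h3
    · intro h y hy
      have h2 := h y hy
      rw [hfresh S2 hS2 y hy]
      refine ⟨h2.1, fun y' hy' hne => ?_⟩
      have h3 := h2.2 y' hy' hne
      rwa [hfresh S2 hS2 y' hy']
  by_cases hG : Good V e zz r τ S1 i
  swap
  · rw [Pr_false]
    · positivity
    · rintro S2 hS2 ⟨h, _⟩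
      exact hG ((hgi S2 hS2).mp h)
  -- the sets at time `i + 1`
  have hnext : ∀ S2, S2 ⊆ row (zz i) V → ∀ y ∈ V, Ts V e zz (S1 ∪ S2) y (i + 1) =
      (Ts V e zz S1 y i).filter (fun w => s(zz i, w) ∈ S2) := by
    intro S2 hS2 y hy
    have : Ts V e zz (S1 ∪ S2) y (i + 1) =
        (Ts V e zz (S1 ∪ S2) y i).filter (fun w => s(zz i, w) ∈ S1 ∪ S2) := by
      simp [Ts, he]
    rw [this, hfresh S2 hS2 y hy]
    apply filter_congr
    intro w hw
    rw [mem_union]
    constructor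
    · rintro (h | h)
      · exact absurd h (hS1z w (Ts_sub hy i hw))
      · exact h
    · exact Or.inr
  have hbad : Pr (row (zz i) V) p (fun S2 => Good V e zz r τ (S1 ∪ S2) i ∧
      ¬ Good V e zz r τ (S1 ∪ S2) (i + 1)) ≤
      Pr (row (zz i) V) p (fun S2 =>
        (∃ y ∈ V, (1 + η / 2) * (Real.exp (r i) * τ (i + 1)) ≤
          ((S2 ∩ row (zz i) (Ts V e zz S1 y i)).card : ℝ)) ∨
        (∃ x ∈ (V ×ˢ V).filter (fun x => x.2 ≠ x.1),
          ((S2 ∩ row (zz i) (Ts V e zz S1 x.1 i \ Ts V e zz S1 x.2 i)).card : ℝ) ≤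
            (1 - η / 2) * (p * (row (zz i) (Ts V e zz S1 x.1 i \ Ts V e zz S1 x.2 i)).card))) := by
    apply Pr_mono h0 h1
    rintro S2 hS2 ⟨_, hn⟩
    by_contra hcon
    push Not at hcon
    obtain ⟨hc1, hc2⟩ := hcon
    apply hn
    intro y hy
    constructor
    · rw [hnext S2 hS2 y hy, ← card_inter_row]
      refine (hc1 y hy).le.trans ?_
      rw [hr, Real.exp_add]
      have h5 := Real.add_one_le_exp η
      have h6 := Real.exp_pos (r i)
      have h7 : 0 ≤ Real.exp (r i) * τ (i + 1) := mul_nonneg h6.le hτ1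
      nlinarith
    · intro y' hy' hne
      have h8 := hc2 (y, y') (by
        rw [mem_filter, mem_product]
        exact ⟨⟨hy, hy'⟩, hne⟩)
      simp only at h8
      rw [card_row, card_inter_row] at h8
      have h9 : Ts V e zz (S1 ∪ S2) y (i + 1) \ Ts V e zz (S1 ∪ S2) y' (i + 1) =
          (Ts V e zz S1 y i \ Ts V e zz S1 y' i).filter (fun w => s(zz i, w) ∈ S2) := by
        rw [hnext S2 hS2 y hy, hnext S2 hS2 y' hy']
        ext w
        simp only [mem_sdiff, mem_filter]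
        tauto
      rw [h9]
      refine le_trans ?_ h8.le
      have h10 := (hG y hy).2 y' hy' hne
      have h11 := exp_neg_le_of_le_one hη0 hη1
      rw [hr, hτ, neg_add, Real.exp_add]
      have h12 := Real.exp_pos (-(r i))
      have h13 : 0 ≤ Real.exp (-(r i)) * τ i := mul_nonneg h12.le hτ0
      calc Real.exp (-r i) * Real.exp (-η) * (p * τ i)
          = Real.exp (-η) * (p * (Real.exp (-r i) * τ i)) := by ring
        _ ≤ (1 - η / 2) * (p * (Real.exp (-r i) * τ i)) :=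
            mul_le_mul_of_nonneg_right h11 (mul_nonneg h0 h13)
        _ ≤ (1 - η / 2) * (p * ((Ts V e zz S1 y i \ Ts V e zz S1 y' i).card : ℝ)) := by
            apply mul_le_mul_of_nonneg_left _ (by linarith)
            exact mul_le_mul_of_nonneg_left h10 h0
  refine hbad.trans ?_
  refine (Pr_or_le h0 h1 _ _).trans ?_
  have hexp1 : 1 ≤ Real.exp (r i) := Real.one_le_exp hr0
  have hexp2 : 1 / 2 ≤ Real.exp (-(r i)) := by
    have := Real.add_one_le_exp (-(r i))
    linarith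
  have hfirst : Pr (row (zz i) V) p (fun S2 =>
        (∃ y ∈ V, (1 + η / 2) * (Real.exp (r i) * τ (i + 1)) ≤
          ((S2 ∩ row (zz i) (Ts V e zz S1 y i)).card : ℝ))) ≤ V.card * Real.exp (-(4 * Λ)) := by
    refine (Pr_exists_le h0 h1 _ _).trans ?_
    calc _ ≤ ∑ _y ∈ V, Real.exp (-(4 * Λ)) := by
          apply sum_le_sum
          intro y hy
          have hμ : p * ((row (zz i) (Ts V e zz S1 y i)).card : ℝ) ≤ Real.exp (r i) * τ (i + 1) := by
            rw [card_row, hτ]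
            have := mul_le_mul_of_nonneg_left (hG y hy).1 h0
            linarith
          refine (card_upper (row_mono _ (Ts_sub hy i)) h0 h1 hηh0 hηh hμ).trans ?_
          apply Real.exp_le_exp.mpr
          have : τ (i + 1) ≤ Real.exp (r i) * τ (i + 1) := by nlinarith
          have h14 := mul_le_mul_of_nonneg_left this (sq_nonneg η)
          nlinarith
      _ = V.card * Real.exp (-(4 * Λ)) := by rw [sum_const, nsmul_eq_mul]
  have hsecond : Pr (row (zz i) V) p (fun S2 =>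
        (∃ x ∈ (V ×ˢ V).filter (fun x => x.2 ≠ x.1),
          ((S2 ∩ row (zz i) (Ts V e zz S1 x.1 i \ Ts V e zz S1 x.2 i)).card : ℝ) ≤
            (1 - η / 2) * (p * (row (zz i) (Ts V e zz S1 x.1 i \ Ts V e zz S1 x.2 i)).card))) ≤
        V.card * V.card * Real.exp (-(4 * Λ)) := by
    refine (Pr_exists_le h0 h1 _ _).trans ?_
    calc _ ≤ ∑ _x ∈ (V ×ˢ V).filter (fun x => x.2 ≠ x.1), Real.exp (-(4 * Λ)) := by
          apply sum_le_sum
          rintro ⟨y, y'⟩ hx
          rw [mem_filter, mem_product] at hx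
          simp only at hx ⊢
          obtain ⟨⟨hy, hy'⟩, hne⟩ := hx
          refine (card_lower (row_mono _ (sdiff_subset.trans (Ts_sub hy i))) h0 h1 hηh0 hηh).trans ?_
          apply Real.exp_le_exp.mpr
          rw [card_row]
          have h15 := mul_le_mul_of_nonneg_left ((hG y hy).2 y' hy' hne) h0
          have h16 : p * τ i / 2 ≤ p * (Real.exp (-(r i)) * τ i) := by
            have := mul_le_mul_of_nonneg_right hexp2 (mul_nonneg h0 hτ0)
            linarith
          have h17 : τ (i + 1) / 2 ≤ p * ((Ts V e zz S1 y i \ Ts V e zz S1 y' i).card : ℝ) := by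
            rw [hτ]; linarith
          have h18 := mul_le_mul_of_nonneg_left h17 (sq_nonneg η)
          nlinarith
      _ = (((V ×ˢ V).filter (fun x => x.2 ≠ x.1)).card : ℝ) * Real.exp (-(4 * Λ)) := by
          rw [sum_const, nsmul_eq_mul]
      _ ≤ V.card * V.card * Real.exp (-(4 * Λ)) := by
          apply mul_le_mul_of_nonneg_right _ (Real.exp_pos _).le
          have := card_filter_le (V ×ˢ V) (fun x => x.2 ≠ x.1)
          rw [card_product] at this
          exact_mod_cast this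
  calc _ ≤ V.card * Real.exp (-(4 * Λ)) + V.card * V.card * Real.exp (-(4 * Λ)) :=
        add_le_add hfirst hsecond
    _ = _ := by ring

end Pool.Agent.W963.LogDepth
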