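import Pool.Agent.W963.LogDepth.DfnB

set_option autoImplicit false

/-! The iterated expansion/thinning process and its definability. -/

namespace Pool.Agent.W963.LogDepth

open FirstOrder Finset Classical

/-- The set `T_y^{(i)}`: an expansion step (`e i = true`) passes to the neighbours outside the pinned
vertices, a thinning step keeps the neighbours of the pinned vertex `c (z i)`. -/
def Tp (m : ℕ) (e : ℕ → Bool) (z : ℕ → Fin m) :
    ℕ → ∀ (N : ℕ), SimpleGraph (Fin N) → (Fin m → Fin N) → Fin N → Fin N → Prop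
  | 0, _, _, _, y, w => w = y
  | i + 1, N, H, c, y, w =>
    if e i = true then (∃ u, Tp m e z i N H c y u ∧ H.Adj u w) ∧ ∀ k, w ≠ c k
    else Tp m e z i N H c y w ∧ H.Adj (c (z i)) w

theorem dfn_Tp (m : ℕ) (e : ℕ → Bool) (z : ℕ → Fin m) : ∀ (i : ℕ) (M : ℕ) (h : m ≤ M) (j l : Fin M),
    Dfn M i (fun N H a => Tp m e z i N H (fun k => a (Fin.castLE h k)) (a j) (a l)) := by
  intro i
  induction i with
  | zero =>
    intro M h j l
    exact Dfn.eq _ _ _
  | succ i ih =>
    intro M h j l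
    by_cases he : e i = true
    · have h' : m ≤ M + 1 := h.trans (Nat.le_succ M)
      have h1 : Dfn (M + 1) i (fun N H a =>
          Tp m e z i N H (fun k => a (Fin.castLE h' k)) (a (Fin.castSucc j)) (a (Fin.last M)) ∧
          H.Adj (a (Fin.last M)) (a (Fin.castSucc l))) :=
        (ih (M + 1) h' (Fin.castSucc j) (Fin.last M)).and (Dfn.adj _ _ _)
      have h2 : Dfn M (i + 1) (fun N H a => ∀ k : Fin m, ¬ (a l = a (Fin.castLE h k))) :=
        Dfn.forall_fin (fun k => (Dfn.eq _ _ _).not)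
      refine (h1.ex.and h2).congr (fun N H a => ?_)
      simp only [snoc_castLE h h', Fin.snoc_last, Fin.snoc_castSucc, Tp, he, if_true]
    · have h1 := (ih M h j l).and (Dfn.adj i (Fin.castLE h (z i)) l)
      refine (h1.mono (Nat.le_succ i)).congr (fun N H a => ?_)
      simp only [Tp, he]
      rfl

/-- the number of `w ∈ T_y` adjacent to the pinned vertex `c x` -/
noncomputable def cntT (m : ℕ) (e : ℕ → Bool) (z : ℕ → Fin m) (i : ℕ) (x : Fin m) (N : ℕ)
    (H : SimpleGraph (Fin N)) (c : Fin m → Fin N) (y : Fin N) : ℕ :=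
  ((univ : Finset (Fin N)).filter (fun w => Tp m e z i N H c y w ∧ H.Adj (c x) w)).card

theorem udfn_cntT (m : ℕ) (e : ℕ → Bool) (z : ℕ → Fin m) (i : ℕ) (x : Fin m) (k : ℕ) :
    UDfn m (i + k) (fun N H c y => k ≤ cntT m e z i x N H c y) := by
  have h := UDfn.count (m := m) (r := i) (P := fun N H c' w =>
    Tp m e z i N H (fun k => c' (Fin.castSucc k)) (c' (Fin.last m)) w ∧
      H.Adj (c' (Fin.castSucc x)) w) (by
    intro M h j l
    refine ((dfn_Tp m e z i M h j l).and (Dfn.adj i (Fin.castLE h x) l)).congr (fun N H a => ?_)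
    simp only [Fin.snoc_last, Fin.snoc_castSucc]) k
  simp only [Fin.snoc_last, Fin.snoc_castSucc] at h
  exact h

/-- if two vertices have distinct counts and one of them is at most `R`, they are separated -/
theorem sep_of_cnt {n m : ℕ} (G : SimpleGraph (Fin n)) (c : Fin m → Fin n) (e : ℕ → Bool)
    (z : ℕ → Fin m) (i R : ℕ) (x : Fin m) {y y' : Fin n}
    (hne : cntT m e z i x n G c y ≠ cntT m e z i x n G c y')
    (hR : cntT m e z i x n G c y ≤ R) (hR' : cntT m e z i x n G c y' ≤ R) :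
    Sep G c (i + R) y y' := by
  have mono : ∀ {a b : Fin n}, Sep G c (i + cntT m e z i x n G c a) a b →
      cntT m e z i x n G c a ≤ R → Sep G c (i + R) a b := by
    rintro a b ⟨Ψ, h1, h2, h3⟩ hle
    exact ⟨Ψ, fun M h j => (h1 M h j).mono (by omega), h2, h3⟩
  rcases lt_or_gt_of_ne hne with h | h
  · apply Sep.symm
    apply mono _ hR'
    exact ⟨_, udfn_cntT m e z i x _, le_rfl, by simpa using h⟩
  · apply mono _ hR
    exact ⟨_, udfn_cntT m e z i x _, le_rfl, by simpa using h⟩

/-- the deterministic statement used in the main proof -/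
theorem depth_of_counts {n m : ℕ} (G : SimpleGraph (Fin n)) (c : Fin m → Fin n) (e : ℕ → Bool)
    (z : ℕ → Fin m) (i R : ℕ)
    (h : ∀ y y' : Fin n, y ≠ y' → (∀ k, y ≠ c k) → (∀ k, y' ≠ c k) →
      ∃ x : Fin m, cntT m e z i x n G c y ≠ cntT m e z i x n G c y' ∧
        cntT m e z i x n G c y ≤ R ∧ cntT m e z i x n G c y' ≤ R) :
    Depth n G (i + R + 2 + m) := by
  apply depth_of_sep G c
  intro y y' hne
  by_cases h1 : ∃ k, y = c k
  · obtain ⟨k, rfl⟩ := h1
    exact sep_pinned G c _ k hne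
  by_cases h2 : ∃ k, y' = c k
  · obtain ⟨k, rfl⟩ := h2
    exact (sep_pinned G c _ k (Ne.symm hne)).symm
  push Not at h1 h2
  obtain ⟨x, hx1, hx2, hx3⟩ := h y y' hne h1 h2
  exact sep_of_cnt G c e z i R x hx1 hx2 hx3

end Pool.Agent.W963.LogDepth
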